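import Pool.Agent.J4.H57.SH.Cur
import Pool.Agent.N906.FH.AllUn

/-!
# The Shimura maps of the newforms of all elliptic curves over `ℚ`, ordered by the height

Q1 asks for constants `κ`, `C` such that the coordinates `m(γ)`, `n(γ)` of `H(γ)` in the basis `Ω₁`, `Ω₂`
are at most `C N ^ κ`, for all newforms `f` of level `N` with integral coefficients and all
`γ ∈ Γ₀(N)` with entries at most `N ^ 2`.

We consider ALL elliptic curves over `ℚ`: the minimal models `y² = x³ - a x - b` with `|a| ≤ X²`,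
`|b| ≤ X³`; there are `X ^ (5 + o(1))` of them.  For `13 / 12 < κ < 11 / 10` all but at most
`X ^ (1 / (2 (κ - 1)) - 1 + o(1))` of them (the exponent is `5` for `κ = 13 / 12` and `4` for
`κ = 11 / 10`) have the following property: for the newform `f` of level `N` of the curve

* `|m(γ)|, |n(γ)| ≤ T ρ N ^ κ` for all `γ ∈ Γ₀(N)` with lower left entry `|r| ≤ N ^ 2`,
* `|m(γ)|, |n(γ)| ≤ T ρ N ^ (κ + 1 / 2) (1 + log |r|)` for ALL `γ ∈ Γ₀(N)` with lower left entry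
  `r ≠ 0`.

Here `ρ` is the Manin constant of the curve `E`: the parametrisation of `E` by the modular curve pulls
the Néron differential back to `± ρ 2 π i f(z) dz`, so that `ρ H(γ)` is in the lattice of the periods
of the Néron differential, whose invariants are `g₂ = c₄ / 12`, `g₃ = c₆ / 216` for the minimal equation.

Proof.  `|H(γ)| ≤ C |r| ^ (1 / 2 + ε)` by Weil's bound for the coefficients, and all non-zero periods
are at least `2 / (3 R)` if `max (|c₄| ^ 3, c₆ ^ 2) ≤ R ^ 12` (`Pool.Agent.J4.H57.SH`,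
`Pool.Agent.N365.SM`).  The number of the curves of height at most `X` with
`N₆ ≤ max (|a| ^ 3, |Disc|) ^ (1 - λ)` is at most `X ^ (5 - 6 λ + o(1))` (`Pool.Agent.N906`).
-/

set_option autoImplicit false

namespace Pool.Agent.Results.MP_bde085_nt.AllCurvesByHeight

open Filter Topology
open Pool.Agent.TH133.SH (IsNewform IsBasis CoordBound Hval)

/-- the discriminant of `x³ - a x - b` -/
def Disc (a b : ℤ) : ℤ := 4 * a ^ 3 - 27 * b ^ 2

/-- `y² = x³ - a x - b` is an elliptic curve and `|Disc|` is least among the integral models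
`y² = x³ - a' x - b'`, `a' = u⁴ a`, `b' = u⁶ b`, `u ∈ ℚ^×`. Every elliptic curve over `ℚ` has exactly
one such model. -/
def IsMinimal (a b : ℤ) : Prop :=
  Disc a b ≠ 0 ∧ ∀ (u : ℚ) (a' b' : ℤ), u ≠ 0 → (a' : ℚ) = u ^ 4 * a → (b' : ℚ) = u ^ 6 * b →
    |Disc a b| ≤ |Disc a' b'|

/-- the minimal models with `|a| ≤ X²`, `|b| ≤ X³`: every elliptic curve over `ℚ` occurs, for large
`X`, exactly once -/
def Models (X : ℝ) : Set (ℤ × ℤ) :=
  {q | IsMinimal q.1 q.2 ∧ |(q.1 : ℝ)| ≤ X ^ 2 ∧ |(q.2 : ℝ)| ≤ X ^ 3}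

/-- `W` is a global minimal Weierstrass equation: `Δ ≠ 0`, and `|Δ|` is smallest among all integral
Weierstrass equations that are obtained from `W` by a change of variables over `ℚ` -/
def IsGlobalMinimal (W : WeierstrassCurve ℤ) : Prop :=
  W.Δ ≠ 0 ∧ ∀ W' : WeierstrassCurve ℤ,
    (∃ C : WeierstrassCurve.VariableChange ℚ,
      C • W.map (Int.castRingHom ℚ) = W'.map (Int.castRingHom ℚ)) → |W.Δ| ≤ |W'.Δ|

/-- `W` is a global minimal equation of the curve `y² = x³ - q.1 x - q.2` -/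
def MinimalEquation (W : WeierstrassCurve ℤ) (q : ℤ × ℤ) : Prop :=
  IsGlobalMinimal W ∧ ∃ C : WeierstrassCurve.VariableChange ℚ,
    C • W.map (Int.castRingHom ℚ) =
      (⟨0, 0, 0, -q.1, -q.2⟩ : WeierstrassCurve ℤ).map (Int.castRingHom ℚ)

/-- the product over the primes `p ≥ 5` dividing `Δ` of `p` (multiplicative reduction, `p ∤ c₄`) or
`p²` (additive, `p ∣ c₄`) -/
def conductor6 (W : WeierstrassCurve ℤ) : ℕ :=
  ∏ p ∈ W.Δ.natAbs.primeFactors.filter (fun p => 5 ≤ p), if (p : ℤ) ∣ W.c₄ then p ^ 2 else p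

/-- the number of the solutions modulo `p` of the affine equation `W` -/
noncomputable def affineCount (W : WeierstrassCurve ℤ) (p : ℕ) : ℕ :=
  {P : ZMod p × ZMod p | P.2 ^ 2 + (W.a₁ : ZMod p) * P.1 * P.2 + (W.a₃ : ZMod p) * P.2 =
    P.1 ^ 3 + (W.a₂ : ZMod p) * P.1 ^ 2 + (W.a₄ : ZMod p) * P.1 + (W.a₆ : ZMod p)}.ncard

/-- `f = ∑ a(n) q ^ n` is the newform of level `N` of the elliptic curve with the global minimal
equation `W`, and `ρ` is the Manin constant.  By the theorems of Eichler, Shimura, Atkin, Lehner,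
Carayol, Wiles and others all newforms of Q1 and all elliptic curves over `ℚ` occur. -/
structure Attached (N : ℕ) (a : ℕ → ℤ) (W : WeierstrassCurve ℤ) (ρ : ℝ) : Prop where
  /-- `f` is a newform of level `N` with integral coefficients, as in Q1 -/
  newform : IsNewform N a
  /-- the level is divisible by the prime-to-6 part of the conductor (it is the conductor) -/
  level : conductor6 W ∣ N
  /-- the coefficients `a(p)`, for all primes `p`, including those of bad reduction -/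
  trace : ∀ p : ℕ, p.Prime → a p = (p : ℤ) - (affineCount W p : ℤ)
  /-- the Euler factors at the primes dividing the level -/
  euler : ∀ p : ℕ, p.Prime → p ∣ N → ∀ n : ℕ, a (p * n) = a p * a n
  pos : 0 < ρ
  /-- `ρ H(γ)` is in the lattice of the periods of the Néron differential `dx / (2y + a₁x + a₃)`,
  which is the lattice with the invariants `g₂ = c₄ / 12` and `g₃ = c₆ / 216` -/
  periods : ∃ L : PeriodPair, L.g₂ = (W.c₄ : ℂ) / 12 ∧ L.g₃ = (W.c₆ : ℂ) / 216 ∧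
    ∀ p q r s : ℤ, p * s - q * r = 1 → (N : ℤ) ∣ r → (ρ : ℂ) * Hval a p q r s ∈ L.lattice

/-- For the newforms attached to the curve `q`, of any level `N`: the coordinates `m(γ)`, `n(γ)` are at
most `T ρ N ^ κ` for all `γ ∈ Γ₀(N)` with lower left entry at most `N ^ 2` and at most
`T ρ N ^ (κ + 1 / 2) (1 + log |r|)` for all `γ ∈ Γ₀(N)` with lower left entry `r ≠ 0`. -/
def Holds (κ T : ℝ) (q : ℤ × ℤ) : Prop :=
  ∀ W : WeierstrassCurve ℤ, MinimalEquation W q → ∀ (N : ℕ) (a : ℕ → ℤ) (ρ : ℝ), 1 ≤ N →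
    Attached N a W ρ → ∀ Ω₁ Ω₂ : ℂ, IsBasis N a Ω₁ Ω₂ →
      ∀ p q' r s : ℤ, p * s - q' * r = 1 → (N : ℤ) ∣ r →
        (|r| ≤ (N : ℤ) ^ 2 → CoordBound a Ω₁ Ω₂ p q' r s (T * ρ * (N : ℝ) ^ κ)) ∧
        (r ≠ 0 → CoordBound a Ω₁ Ω₂ p q' r s
          (T * ρ * (N : ℝ) ^ (κ + 1 / 2) * (1 + Real.log |(r : ℝ)|)))

theorem att {N : ℕ} {a : ℕ → ℤ} {W : WeierstrassCurve ℤ} {ρ : ℝ} (h : Attached N a W ρ) :
    Pool.Agent.J4.H57.SH.Att N a W ρ :=
  ⟨h.newform, h.level, h.trace, h.euler, h.pos, h.periods⟩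

/-- the bounds hold if the height of the curve is small -/
theorem holds_of {ε s : ℝ} (hε : 0 < ε) (hs : 0 < s) : ∃ T : ℝ, 0 < T ∧ ∀ q : ℤ × ℤ,
    IsMinimal q.1 q.2 → ((max (4 * |q.1| ^ 3) (27 * q.2 ^ 2) : ℤ) : ℝ) ≤
      9 * (Pool.Agent.N906.SZ.Nc q.1 q.2 : ℝ) ^ (12 * s) → Holds (1 + s + ε) T q := by
  obtain ⟨C, hC, h0⟩ := Pool.Agent.J4.H57.SH.att_coords hε
  obtain ⟨c, hc⟩ : ∃ c : ℝ, c = (248832 : ℝ) ^ ((1 : ℝ) / 12) := ⟨_, rfl⟩
  have hc0 : 0 < c := by rw [hc]; positivity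
  have hc12 : c ^ 12 = 248832 := by
    rw [hc, ← Real.rpow_natCast, ← Real.rpow_mul (by norm_num)]
    norm_num
  refine ⟨C * c, by positivity, fun q hmin hle W hW N a ρ hN hA Ω₁ Ω₂ hb p q' r s' hdet hr => ?_⟩
  obtain ⟨s1, s2⟩ := Pool.Agent.J4.H57.SH.short_of hW.1 hmin hW.2
  have hNR : (1 : ℝ) ≤ N := by exact_mod_cast hN
  have hN0 : (0 : ℝ) < N := by linarith
  have hcN : (Pool.Agent.N906.SZ.Nc q.1 q.2 : ℝ) ≤ N := by
    have h1 : Pool.Agent.N906.SZ.Nc q.1 q.2 ≤ N := le_trans s2 (Nat.le_of_dvd hN hA.level)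
    exact_mod_cast h1
  obtain ⟨R, hR⟩ : ∃ R : ℝ, R = c * (N : ℝ) ^ s := ⟨_, rfl⟩
  have hR0 : 0 < R := by rw [hR]; positivity
  have e6 : ((N : ℝ) ^ s) ^ 12 = (N : ℝ) ^ (12 * s) := by
    rw [← Real.rpow_natCast, ← Real.rpow_mul hN0.le]
    congr 1
    push_cast
    ring
  have hH : max (|(W.c₄ : ℝ)| ^ 3) ((W.c₆ : ℝ) ^ 2) ≤ R ^ 12 := by
    refine s1.trans ?_
    rw [hR, mul_pow, e6, hc12]
    have h2 : (Pool.Agent.N906.SZ.Nc q.1 q.2 : ℝ) ^ (12 * s) ≤ (N : ℝ) ^ (12 * s) :=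
      Real.rpow_le_rpow (Nat.cast_nonneg _) hcN (by positivity)
    linarith
  obtain ⟨k1, k2⟩ := h0 N a W ρ R Ω₁ Ω₂ hN (att hA) hR0 hH hb p q' r s' hdet hr
  have e1 : C * ρ * R * (N : ℝ) ^ (1 + ε) = C * c * ρ * (N : ℝ) ^ (1 + s + ε) := by
    have e3 : (N : ℝ) ^ (1 + s + ε) = (N : ℝ) ^ s * (N : ℝ) ^ (1 + ε) := by
      rw [← Real.rpow_add hN0]
      congr 1
      ring
    rw [hR, e3]
    generalize (N : ℝ) ^ s = u
    generalize (N : ℝ) ^ (1 + ε) = v
    ring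
  have e2 : C * ρ * R * (N : ℝ) ^ (3 / 2 + ε) = C * c * ρ * (N : ℝ) ^ (1 + s + ε + 1 / 2) := by
    have e3 : (N : ℝ) ^ (1 + s + ε + 1 / 2) = (N : ℝ) ^ s * (N : ℝ) ^ (3 / 2 + ε) := by
      rw [← Real.rpow_add hN0]
      congr 1
      ring
    rw [hR, e3]
    generalize (N : ℝ) ^ s = u
    generalize (N : ℝ) ^ (3 / 2 + ε) = v
    ring
  rw [e1] at k1
  rw [e2] at k2
  exact ⟨k1, k2⟩

theorem hm (a b : ℤ) : IsMinimal a b ↔ Pool.Agent.N906.SZ.Mn a b :=
  Pool.Agent.N157.SZ.isMinimal_iff a b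

/-- **Theorem.** Let `13 / 12 < κ < 11 / 10` and `δ > 0`. There are `T` and `X₀` such that for all
`X ≥ X₀` all but at most `X ^ (1 / (2 (κ - 1)) - 1 + δ)` of the elliptic curves
`y² = x³ - a x - b` over `ℚ` (minimal models) with `|a| ≤ X²`, `|b| ≤ X³` satisfy `Holds κ T`; and there
are finitely many, but at least `X ^ (5 - δ)`, such curves. -/
theorem result (κ δ : ℝ) (h1 : 13 / 12 < κ) (h2 : κ < 11 / 10) (hδ : 0 < δ) :
    ∃ T X₀ : ℝ, 0 < T ∧ ∀ X : ℝ, X₀ ≤ X → (Models X).Finite ∧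
      X ^ (5 - δ) ≤ ((Models X).ncard : ℝ) ∧
      (({q | q ∈ Models X ∧ ¬ Holds κ T q}.ncard : ℕ) : ℝ) ≤ X ^ (1 / (2 * (κ - 1)) - 1 + δ) := by
  -- the parameters
  obtain ⟨s, hs1, hs2, hs3⟩ : ∃ s : ℝ, 1 / 12 < s ∧ s < κ - 1 ∧
      1 / (2 * s) < 1 / (2 * (κ - 1)) + δ / 2 := by
    have hcont : ContinuousAt (fun s : ℝ => 1 / (2 * s)) (κ - 1) := by
      refine ContinuousAt.div continuousAt_const (by fun_prop) ?_
      have : 0 < κ - 1 := by linarith
      positivity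
    have hev : ∀ᶠ s in 𝓝 (κ - 1), 1 / (2 * s) < 1 / (2 * (κ - 1)) + δ / 2 :=
      hcont.eventually_lt continuousAt_const (by linarith)
    have hev2 : ∀ᶠ s in 𝓝[<] (κ - 1), 1 / (2 * s) < 1 / (2 * (κ - 1)) + δ / 2 :=
      hev.filter_mono nhdsWithin_le_nhds
    have hev3 : ∀ᶠ s in 𝓝[<] (κ - 1), s ∈ Set.Ioo (1 / 12 : ℝ) (κ - 1) :=
      Ioo_mem_nhdsLT (by linarith)
    obtain ⟨s, g1, g2⟩ := (hev2.and hev3).exists
    exact ⟨s, g2.1, g2.2, g1⟩
  have hs0 : 0 < s := by linarith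
  have hs10 : s < 1 / 10 := by linarith
  obtain ⟨lam, hlam⟩ : ∃ lam : ℝ, lam = 1 - 1 / (12 * s) := ⟨_, rfl⟩
  have hl0 : 0 < lam := by
    rw [hlam, sub_pos, div_lt_one (by positivity)]
    linarith
  have hl6 : lam < 1 / 6 := by
    rw [hlam]
    have : 1 / (12 * (1 / 10)) < 1 / (12 * s) := by
      refine one_div_lt_one_div_of_lt (by positivity) (by linarith)
    have h6 : (1 : ℝ) / (12 * (1 / 10)) = 5 / 6 := by norm_num
    rw [h6] at this
    linarith
  have hl1 : (1 - lam) * (12 * s) = 1 := by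
    rw [hlam]
    field_simp
    ring
  have hexp : 5 - 6 * lam = 1 / (2 * s) - 1 := by
    rw [hlam]
    field_simp
    ring
  obtain ⟨ε, hε⟩ : ∃ ε : ℝ, ε = κ - 1 - s := ⟨_, rfl⟩
  have hε0 : 0 < ε := by rw [hε]; linarith
  obtain ⟨T, hT, hH⟩ := holds_of hε0 hs0
  obtain ⟨X1, hX1, hup⟩ := Pool.Agent.N906.FH.up_un lam 1 1 hl0 hl6 le_rfl one_pos
  obtain ⟨mu, hmu⟩ : ∃ mu : ℝ, mu = min (δ / 12) (1 / 12) := ⟨_, rfl⟩
  have hmu0 : 0 < mu := by rw [hmu]; positivity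
  have hmu1 : mu < 1 / 6 := by
    rw [hmu]
    exact lt_of_le_of_lt (min_le_right _ _) (by norm_num)
  have hmu2 : 6 * mu ≤ δ / 2 := by
    have : mu ≤ δ / 12 := by rw [hmu]; exact min_le_left _ _
    linarith
  obtain ⟨X2, hX2, hlo⟩ := Pool.Agent.N906.SZ.lo_all mu 1 (1 / 2) hmu0 hmu1 le_rfl (by norm_num)
    (by norm_num)
  -- the second order term
  have hlim : Tendsto (fun X : ℝ => Real.log (Real.log X)) atTop atTop :=
    Real.tendsto_log_atTop.comp Real.tendsto_log_atTop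
  obtain ⟨A, hA⟩ : ∃ A : ℝ, A = max 1 ((2 * (2 / δ)) ^ 2 * (48 * 2 * lam)) := ⟨_, rfl⟩
  have hA1 : 1 ≤ A := by rw [hA]; exact le_max_left _ _
  obtain ⟨X3, hX3⟩ := eventually_atTop.1 ((hlim.eventually_ge_atTop 1).and
    (Real.tendsto_log_atTop.eventually_ge_atTop A))
  refine ⟨T, max (max X1 X2) (max X3 3), hT, fun X hX => ?_⟩
  have hXX1 : X1 ≤ X := ((le_max_left _ _).trans (le_max_left _ _)).trans hX
  have hXX2 : X2 ≤ X := ((le_max_right _ _).trans (le_max_left _ _)).trans hX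
  have hXX3 : X3 ≤ X := ((le_max_left _ _).trans (le_max_right _ _)).trans hX
  have hX3' : 3 ≤ X := ((le_max_right _ _).trans (le_max_right _ _)).trans hX
  have hX0 : 0 < X := by linarith
  obtain ⟨hll, hlA⟩ := hX3 X hXX3
  have hfin : (Models X).Finite :=
    (Pool.Agent.N906.SZ.box_fin X).subset fun q hq => hq.2
  have hlogpos : 0 < Real.log X := lt_of_lt_of_le (by linarith) hlA
  have hsq : (1 + 1) * √(48 * 2 * lam * Real.log X / Real.log (Real.log X)) ≤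
      δ / 2 * Real.log X := by
    have h3 : √(48 * 2 * lam * Real.log X / Real.log (Real.log X)) ≤ δ / 4 * Real.log X := by
      rw [Real.sqrt_le_left (by positivity)]
      have h4 : 48 * 2 * lam * Real.log X / Real.log (Real.log X) ≤ 48 * 2 * lam * Real.log X :=
        div_le_self (by positivity) hll
      refine h4.trans ?_
      have h5 : (2 * (2 / δ)) ^ 2 * (48 * 2 * lam) ≤ Real.log X :=
        le_trans (by rw [hA]; exact le_max_right _ _) hlA
      have h6 : 48 * 2 * lam ≤ (δ / 4) ^ 2 * Real.log X := by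
        have e : (2 * (2 / δ)) ^ 2 * (48 * 2 * lam) = (48 * 2 * lam) / (δ / 4) ^ 2 := by
          field_simp
          ring
        rw [e, div_le_iff₀ (by positivity)] at h5
        linarith
      calc 48 * 2 * lam * Real.log X ≤ (δ / 4) ^ 2 * Real.log X * Real.log X :=
            mul_le_mul_of_nonneg_right h6 hlogpos.le
        _ = _ := by ring
    linarith
  refine ⟨hfin, ?_, ?_⟩
  · obtain ⟨F, hF, hFc⟩ := hlo X hXX2
    have hsub : (F : Set (ℤ × ℤ)) ⊆ Models X := by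
      intro x hx
      obtain ⟨g1, g2, g3, -⟩ := hF x hx
      exact ⟨(hm _ _).2 g1, g2, g3⟩
    have h3 : (F.card : ℝ) ≤ ((Models X).ncard : ℝ) := by
      rw [← Set.ncard_coe_finset]
      exact_mod_cast Set.ncard_le_ncard hsub hfin
    refine le_trans ?_ (hFc.trans h3)
    rw [Real.rpow_def_of_pos hX0, Real.exp_le_exp]
    have h4 : 0 ≤ (1 - 1 / 2) * √(96 * mu * Real.log X / Real.log (Real.log X)) := by positivity
    nlinarith
  · obtain ⟨F, hF⟩ : ∃ F : Finset (ℤ × ℤ), (F : Set (ℤ × ℤ)) = {q | q ∈ Models X ∧ ¬ Holds κ T q} :=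
      (hfin.subset fun q hq => hq.1).exists_finset_coe
    rw [← hF, Set.ncard_coe_finset]
    have h3 := hup X F hXX1 (by
      intro x hx
      have hx' : x ∈ {q | q ∈ Models X ∧ ¬ Holds κ T q} := by rw [← hF]; exact hx
      obtain ⟨⟨g1, g2, g3⟩, g4⟩ := hx'
      have hMn := (hm _ _).1 g1
      obtain ⟨n, hn1, hn2, hn3⟩ := Pool.Agent.N157.SZ.gain x.1 x.2 hMn.1
      refine ⟨hMn, g2, g3, n, hn1, hn2, ?_⟩
      by_contra hcon
      rw [not_le, one_mul] at hcon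
      apply g4
      have e : κ = 1 + s + ε := by rw [hε]; ring
      rw [e]
      refine hH x g1 ?_
      -- the height
      have hnR : (0 : ℝ) < n := by exact_mod_cast hn1
      have hDn : |((Pool.Agent.N906.SZ.Dd x.1 x.2 : ℤ) : ℝ)| =
          n * (Pool.Agent.N906.SZ.Nc x.1 x.2 : ℝ) := by
        have h5 : (((Pool.Agent.N906.SZ.Dd x.1 x.2).natAbs : ℕ) : ℝ) =
            ((n * Pool.Agent.N906.SZ.Nc x.1 x.2 : ℕ) : ℝ) := by rw [hn3]
        rw [Nat.cast_natAbs, Int.cast_abs] at h5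
        rw [h5]
        push_cast
        rfl
      rw [hDn] at hcon
      have hMN : Pool.Agent.N906.FH.Mx x.1 x.2 ^ (1 - lam) <
          (Pool.Agent.N906.SZ.Nc x.1 x.2 : ℝ) := lt_of_mul_lt_mul_left hcon hnR.le
      have hMx0 : 0 < Pool.Agent.N906.FH.Mx x.1 x.2 := by
        unfold Pool.Agent.N906.FH.Mx
        refine lt_max_of_lt_right (abs_pos.2 ?_)
        exact_mod_cast hMn.1
      have h5 : Pool.Agent.N906.FH.Mx x.1 x.2 ≤
          (Pool.Agent.N906.SZ.Nc x.1 x.2 : ℝ) ^ (12 * s) := by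
        have h6 := Real.rpow_le_rpow (by positivity) hMN.le (by positivity : 0 ≤ 12 * s)
        rwa [← Real.rpow_mul hMx0.le, hl1, Real.rpow_one] at h6
      have h6 : ((max (4 * |x.1| ^ 3) (27 * x.2 ^ 2) : ℤ) : ℝ) ≤
          9 * Pool.Agent.N906.FH.Mx x.1 x.2 := by
        have m1 : |(x.1 : ℝ)| ^ 3 ≤ Pool.Agent.N906.FH.Mx x.1 x.2 := le_max_left _ _
        have m2 : |((Pool.Agent.N906.SZ.Dd x.1 x.2 : ℤ) : ℝ)| ≤
            Pool.Agent.N906.FH.Mx x.1 x.2 := le_max_right _ _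
        have m3 : ((Pool.Agent.N906.SZ.Dd x.1 x.2 : ℤ) : ℝ) =
            4 * (x.1 : ℝ) ^ 3 - 27 * (x.2 : ℝ) ^ 2 := by
          unfold Pool.Agent.N906.SZ.Dd
          push_cast
          ring
        have m4 : (x.1 : ℝ) ^ 3 ≤ |(x.1 : ℝ)| ^ 3 := by rw [← abs_pow]; exact le_abs_self _
        have m5 := neg_abs_le ((Pool.Agent.N906.SZ.Dd x.1 x.2 : ℤ) : ℝ)
        push_cast
        refine max_le ?_ ?_
        · linarith
        · linarith
      linarith)
    refine h3.trans ?_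
    rw [Real.rpow_def_of_pos hX0, Real.exp_le_exp]
    have h5 : 5 - 6 * lam ≤ 1 / (2 * (κ - 1)) - 1 + δ / 2 := by
      rw [hexp]
      linarith
    calc (5 - 6 * lam) * Real.log X + (1 + 1) * √(48 * 2 * lam * Real.log X /
          Real.log (Real.log X))
        ≤ (1 / (2 * (κ - 1)) - 1 + δ / 2) * Real.log X + δ / 2 * Real.log X :=
          add_le_add (mul_le_mul_of_nonneg_right h5 hlogpos.le) hsq
      _ = Real.log X * (1 / (2 * (κ - 1)) - 1 + δ) := by ring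

end Pool.Agent.Results.MP_bde085_nt.AllCurvesByHeight
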