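import Pool.Agent.J4.H57.SH.Cur
import Pool.Agent.J4.H57.SH.Ht
import Pool.Agent.J4.H57.SH.Jr
import Pool.Agent.Y728.AK.JLine

/-!
# The Shimura maps of all elliptic curves over `ℚ` with almost every invariant

Q1 asks for constants `κ`, `C` such that the coordinates `m(γ)`, `n(γ)` of `H(γ)` in the basis `Ω₁`, `Ω₂`
are at most `C N ^ κ`, for all newforms `f` of level `N` with integral coefficients and all
`γ ∈ Γ₀(N)` with entries at most `N ^ 2`.

We order the invariants `j ∈ ℚ` by the product of the primes at which `j` reduces to `0`, `1728` or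
`∞`: for `j = x / y` in lowest terms this is the product of the primes dividing
`x y (x - 1728 y)`.  (For the elliptic curves with the invariant `j` these are the bad primes of all
twists: the conductors are composed of them up to a twist.)  There are `X ^ (2 / 3 + o(1))` invariants
for which it is at most `X`.  For all but `O(X ^ (2 / 3 - ν))` of them, and for ALL elliptic curves `E`
over `ℚ` with the invariant `j` (all twists): for the newform `f` of level `N` of the curve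

* `|m(γ)|, |n(γ)| ≤ C ρ N ^ (3 / 2 + ε)` for all `γ ∈ Γ₀(N)` with lower left entry `|r| ≤ N ^ 2`,
* `|m(γ)|, |n(γ)| ≤ C ρ N ^ (2 + ε) (1 + log |r|)` for ALL `γ ∈ Γ₀(N)` with lower left entry `r ≠ 0`.

Here `ρ` is the Manin constant of the curve `E`: the parametrisation of `E` by the modular curve pulls
the Néron differential back to `± ρ 2 π i f(z) dz`, so that `ρ H(γ)` is in the lattice of the periods
of the Néron differential, whose invariants are `g₂ = c₄ / 12`, `g₃ = c₆ / 216` for the minimal equation.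

Proof.  `|H(γ)| ≤ C |r| ^ (1 / 2 + ε)` by Weil's bound for the coefficients, and all non-zero periods
are at least `2 / (3 R)` if `max (|c₄| ^ 3, c₆ ^ 2) ≤ R ^ 12` (`Pool.Agent.J4.H57.SH`,
`Pool.Agent.N365.SM`), `max (|c₄| ^ 3, c₆ ^ 2) ≤ C (|x| + |y|) N ^ 5` for the minimal equation, and for
almost all `j` the product of the primes dividing `y` is at least `max (|x|, |y|) ^ (1 - κ)`
(`Pool.Agent.Y728.AK`, the abc-type inequality for almost all points of the line ordered by the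
truncated counting function).
-/

set_option autoImplicit false

namespace Pool.Agent.Results.MP_bde085_nt.AlmostAllInvariants

open Finset Filter Topology
open Pool.Agent.TH133.SH (IsNewform IsBasis CoordBound Hval)

/-- the product of the primes dividing `n` -/
def rad (n : ℕ) : ℕ := ∏ p ∈ n.primeFactors, p

/-- the product of the primes at which `j` reduces to `0`, `1728` or `∞`: the primes which divide
`x y (x - 1728 y)`, where `j = x / y` in lowest terms -/
def nearPrimes (j : ℚ) : ℕ := rad (j.num * j.den * (j.num - 1728 * j.den)).natAbs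

/-- the invariants of size at most `X` -/
def Invariants (X : ℝ) : Set ℚ := {j | j ≠ 0 ∧ j ≠ 1728 ∧ (nearPrimes j : ℝ) ≤ X}

/-- `W` is a global minimal Weierstrass equation: `Δ ≠ 0`, and `|Δ|` is smallest among all integral
Weierstrass equations that are obtained from `W` by a change of variables over `ℚ` -/
def IsGlobalMinimal (W : WeierstrassCurve ℤ) : Prop :=
  W.Δ ≠ 0 ∧ ∀ W' : WeierstrassCurve ℤ,
    (∃ C : WeierstrassCurve.VariableChange ℚ,
      C • W.map (Int.castRingHom ℚ) = W'.map (Int.castRingHom ℚ)) → |W.Δ| ≤ |W'.Δ|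

/-- the product over the primes `p ≥ 5` dividing `Δ` of `p` (multiplicative reduction, `p ∤ c₄`) or
`p²` (additive, `p ∣ c₄`) -/
def conductor6 (W : WeierstrassCurve ℤ) : ℕ :=
  ∏ p ∈ W.Δ.natAbs.primeFactors.filter (fun p => 5 ≤ p), if (p : ℤ) ∣ W.c₄ then p ^ 2 else p

/-- the number of the solutions modulo `p` of the affine equation `W` -/
noncomputable def affineCount (W : WeierstrassCurve ℤ) (p : ℕ) : ℕ :=
  {P : ZMod p × ZMod p | P.2 ^ 2 + (W.a₁ : ZMod p) * P.1 * P.2 + (W.a₃ : ZMod p) * P.2 =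
    P.1 ^ 3 + (W.a₂ : ZMod p) * P.1 ^ 2 + (W.a₄ : ZMod p) * P.1 + (W.a₆ : ZMod p)}.ncard

/-- `f = ∑ a(n) q ^ n` is the newform of level `N` of the elliptic curve with the global minimal
equation `W`, and `ρ` is the Manin constant.  By the theorems of Eichler, Shimura, Atkin, Lehner,
Carayol, Wiles and others all newforms of Q1 and all elliptic curves over `ℚ` occur. -/
structure Attached (N : ℕ) (a : ℕ → ℤ) (W : WeierstrassCurve ℤ) (ρ : ℝ) : Prop where
  /-- `f` is a newform of level `N` with integral coefficients, as in Q1 -/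
  newform : IsNewform N a
  /-- the level is divisible by the prime-to-6 part of the conductor (it is the conductor) -/
  level : conductor6 W ∣ N
  /-- the coefficients `a(p)`, for all primes `p`, including those of bad reduction -/
  trace : ∀ p : ℕ, p.Prime → a p = (p : ℤ) - (affineCount W p : ℤ)
  /-- the Euler factors at the primes dividing the level -/
  euler : ∀ p : ℕ, p.Prime → p ∣ N → ∀ n : ℕ, a (p * n) = a p * a n
  pos : 0 < ρ
  /-- `ρ H(γ)` is in the lattice of the periods of the Néron differential `dx / (2y + a₁x + a₃)`,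
  which is the lattice with the invariants `g₂ = c₄ / 12` and `g₃ = c₆ / 216` -/
  periods : ∃ L : PeriodPair, L.g₂ = (W.c₄ : ℂ) / 12 ∧ L.g₃ = (W.c₆ : ℂ) / 216 ∧
    ∀ p q r s : ℤ, p * s - q * r = 1 → (N : ℤ) ∣ r → (ρ : ℂ) * Hval a p q r s ∈ L.lattice

/-- For all elliptic curves over `ℚ` with the invariant `j` (global minimal equations `W`) and all the
newforms attached to them, of any level `N`: the coordinates `m(γ)`, `n(γ)` are at most `C ρ N ^ κ` for
all `γ ∈ Γ₀(N)` with lower left entry at most `N ^ 2` and at most `C ρ N ^ (κ + 1 / 2) (1 + log |r|)`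
for all `γ ∈ Γ₀(N)` with lower left entry `r ≠ 0`. -/
def Holds (κ C : ℝ) (j : ℚ) : Prop :=
  ∀ W : WeierstrassCurve ℤ, IsGlobalMinimal W → (W.c₄ : ℚ) ^ 3 = j * (W.Δ : ℚ) →
    ∀ (N : ℕ) (a : ℕ → ℤ) (ρ : ℝ), 1 ≤ N →
    Attached N a W ρ → ∀ Ω₁ Ω₂ : ℂ, IsBasis N a Ω₁ Ω₂ →
      ∀ p q r s : ℤ, p * s - q * r = 1 → (N : ℤ) ∣ r →
        (|r| ≤ (N : ℤ) ^ 2 → CoordBound a Ω₁ Ω₂ p q r s (C * ρ * (N : ℝ) ^ κ)) ∧
        (r ≠ 0 → CoordBound a Ω₁ Ω₂ p q r s
          (C * ρ * (N : ℝ) ^ (κ + 1 / 2) * (1 + Real.log |(r : ℝ)|)))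

theorem att {N : ℕ} {a : ℕ → ℤ} {W : WeierstrassCurve ℤ} {ρ : ℝ} (h : Attached N a W ρ) :
    Pool.Agent.J4.H57.SH.Att N a W ρ :=
  ⟨h.newform, h.level, h.trace, h.euler, h.pos, h.periods⟩

/-- the bounds hold if the product of the primes dividing the denominator is large -/
theorem holds_of {ε : ℝ} (hε : 0 < ε) : ∃ κ C : ℝ, 0 < κ ∧ κ < 1 ∧ 0 < C ∧ ∀ j : ℚ, j ≠ 0 →
    (1 - κ) * Real.log (max j.num.natAbs j.den : ℕ) ≤ Real.log (rad j.den) →
    Holds (3 / 2 + ε) C j := by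
  obtain ⟨η, hη⟩ : ∃ η : ℝ, η = ε / 2 := ⟨_, rfl⟩
  have hη0 : 0 < η := by rw [hη]; positivity
  obtain ⟨C, hC, h0⟩ := Pool.Agent.J4.H57.SH.att_coords hη0
  obtain ⟨κ, hκ⟩ : ∃ κ : ℝ, κ = 12 * η / (1 + 12 * η) := ⟨_, rfl⟩
  have hκ0 : 0 < κ := by rw [hκ]; positivity
  have hκ1 : κ < 1 := by rw [hκ, div_lt_one (by positivity)]; linarith
  have hκe : (1 - κ) * (1 + 12 * η) = 1 := by
    rw [hκ]
    field_simp
    ring
  obtain ⟨K, hK⟩ : ∃ K : ℝ, K = 2 * 10 ^ 21 * 6 ^ (1 + 12 * η) := ⟨_, rfl⟩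
  have hK0 : 0 < K := by rw [hK]; positivity
  obtain ⟨c, hc⟩ : ∃ c : ℝ, c = K ^ ((1 : ℝ) / 12) := ⟨_, rfl⟩
  have hc0 : 0 < c := by rw [hc]; positivity
  have hc12 : c ^ 12 = K := by
    rw [hc, ← Real.rpow_natCast, ← Real.rpow_mul hK0.le]
    norm_num
  refine ⟨κ, C * c, hκ0, hκ1, by positivity, fun j hj0 hj W hW hWj N a ρ hN hA Ω₁ Ω₂ hb p q r s
    hdet hr => ?_⟩
  have hNR : (1 : ℝ) ≤ N := by exact_mod_cast hN
  have hN0 : (0 : ℝ) < N := by linarith
  have hcN : (Pool.Agent.H39R3.condW W : ℝ) ≤ N := by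
    have h1 : Pool.Agent.H39R3.condW W ≤ N := Nat.le_of_dvd hN hA.level
    exact_mod_cast h1
  have hcW : 0 < Pool.Agent.H39R3.condW W := Pool.Agent.H39R3.condW_pos W
  have hx : j.num ≠ 0 := Rat.num_ne_zero.2 hj0
  have hy : (j.den : ℤ) ≠ 0 := by exact_mod_cast j.den_nz
  have hrel : W.c₄ ^ 3 * (j.den : ℤ) = j.num * W.Δ := by
    have h1 : (W.c₄ : ℚ) ^ 3 * (j.den : ℚ) = (j.num : ℚ) * (W.Δ : ℚ) := by
      rw [hWj, ← Rat.mul_den_eq_num j]
      ring
    exact_mod_cast h1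
  obtain ⟨k1, k2⟩ := Pool.Agent.J4.H57.SH.height_le hW hx hy hrel
  -- the height of the invariant
  obtain ⟨H, hH⟩ : ∃ H : ℕ, H = max j.num.natAbs j.den := ⟨_, rfl⟩
  rw [← hH] at hj
  have hH1 : 1 ≤ H := by rw [hH]; exact le_max_of_le_right j.den_pos
  have hHR : (1 : ℝ) ≤ H := by exact_mod_cast hH1
  have hrad : rad j.den ∣ 6 * Pool.Agent.H39R3.condW W := by
    unfold rad
    refine prod_primes_dvd _ (fun p hp => (Nat.prime_of_mem_primeFactors hp).prime) fun p hp => ?_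
    have hpp := Nat.prime_of_mem_primeFactors hp
    rcases lt_or_ge p 5 with h5 | h5
    · have h6 : p ∣ 6 := by
        have h2 := hpp.two_le
        interval_cases p
        · norm_num
        · norm_num
        · exact absurd hpp (by norm_num)
      exact h6.mul_right _
    · have hpd := Nat.dvd_of_mem_primeFactors hp
      refine (k2 p hpp h5 (by exact_mod_cast hpd) fun hpn => ?_).mul_left _
      have h7 : p ∣ j.num.natAbs := by
        rw [← Int.natCast_dvd]
        exact hpn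
      have h8 := Nat.dvd_gcd h7 hpd
      rw [j.reduced.gcd_eq_one] at h8
      exact hpp.one_lt.ne' (Nat.dvd_one.1 h8)
  have hradle : (rad j.den : ℝ) ≤ 6 * (N : ℝ) := by
    have h1 : rad j.den ≤ 6 * Pool.Agent.H39R3.condW W := Nat.le_of_dvd (by positivity) hrad
    have h2 : (rad j.den : ℝ) ≤ 6 * (Pool.Agent.H39R3.condW W : ℝ) := by exact_mod_cast h1
    linarith
  have hrad0 : 0 < (rad j.den : ℝ) := by
    have : 0 < rad j.den := Nat.pos_of_dvd_of_pos hrad (by positivity)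
    exact_mod_cast this
  have hHN : (H : ℝ) ≤ (6 * (N : ℝ)) ^ (1 + 12 * η) := by
    have h1 : Real.log H ≤ (1 + 12 * η) * Real.log (6 * (N : ℝ)) := by
      have h2 : (1 - κ) * Real.log H ≤ Real.log (6 * (N : ℝ)) :=
        hj.trans (Real.log_le_log hrad0 hradle)
      have h3 := mul_le_mul_of_nonneg_left h2 (by positivity : 0 ≤ 1 + 12 * η)
      calc Real.log H = (1 - κ) * (1 + 12 * η) * Real.log H := by rw [hκe, one_mul]
        _ = (1 + 12 * η) * ((1 - κ) * Real.log H) := by ring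
        _ ≤ _ := h3
    rw [← Real.log_rpow (by positivity)] at h1
    exact (Real.log_le_log_iff (by linarith) (by positivity)).1 h1
  obtain ⟨R, hR⟩ : ∃ R : ℝ, R = c * (N : ℝ) ^ (1 / 2 + η) := ⟨_, rfl⟩
  have hR0 : 0 < R := by rw [hR]; positivity
  have e6 : ((N : ℝ) ^ (1 / 2 + η)) ^ 12 = (N : ℝ) ^ (1 + 12 * η) * (N : ℝ) ^ 5 := by
    rw [← Real.rpow_natCast, ← Real.rpow_mul hN0.le, ← Real.rpow_natCast (N : ℝ) 5,
      ← Real.rpow_add hN0]
    congr 1
    push_cast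
    ring
  have hHt : max (|(W.c₄ : ℝ)| ^ 3) ((W.c₆ : ℝ) ^ 2) ≤ R ^ 12 := by
    refine k1.trans ?_
    rw [hR, mul_pow, e6, hc12, hK]
    have h1 : |(j.num : ℝ)| ≤ H := by
      have h2 : j.num.natAbs ≤ H := by rw [hH]; exact le_max_left _ _
      have h3 : ((j.num.natAbs : ℕ) : ℝ) ≤ H := by exact_mod_cast h2
      rwa [Nat.cast_natAbs, Int.cast_abs] at h3
    have h2 : |((j.den : ℤ) : ℝ)| ≤ H := by
      have h3 : j.den ≤ H := by rw [hH]; exact le_max_right _ _
      rw [Int.cast_natCast, Nat.abs_cast]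
      exact_mod_cast h3
    have h3 : |(j.num : ℝ)| + |((j.den : ℤ) : ℝ)| ≤ 2 * (6 ^ (1 + 12 * η) * (N : ℝ) ^ (1 + 12 * η)) := by
      rw [← Real.mul_rpow (by norm_num) hN0.le]
      linarith
    have h4 : (Pool.Agent.H39R3.condW W : ℝ) ^ 5 ≤ (N : ℝ) ^ 5 :=
      pow_le_pow_left₀ (Nat.cast_nonneg _) hcN 5
    calc 10 ^ 21 * (|(j.num : ℝ)| + |((j.den : ℤ) : ℝ)|) * (Pool.Agent.H39R3.condW W : ℝ) ^ 5
        ≤ 10 ^ 21 * (2 * (6 ^ (1 + 12 * η) * (N : ℝ) ^ (1 + 12 * η))) * (N : ℝ) ^ 5 :=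
          mul_le_mul (mul_le_mul_of_nonneg_left h3 (by positivity)) h4 (by positivity)
            (by positivity)
      _ = _ := by ring
  obtain ⟨g1, g2⟩ := h0 N a W ρ R Ω₁ Ω₂ hN (att hA) hR0 hHt hb p q r s hdet hr
  have e1 : C * ρ * R * (N : ℝ) ^ (1 + η) = C * c * ρ * (N : ℝ) ^ (3 / 2 + ε) := by
    have e3 : (N : ℝ) ^ (3 / 2 + ε) = (N : ℝ) ^ (1 / 2 + η) * (N : ℝ) ^ (1 + η) := by
      rw [← Real.rpow_add hN0, hη]
      congr 1
      ring
    rw [hR, e3]
    generalize (N : ℝ) ^ (1 / 2 + η) = u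
    generalize (N : ℝ) ^ (1 + η) = v
    ring
  have e2 : C * ρ * R * (N : ℝ) ^ (3 / 2 + η) = C * c * ρ * (N : ℝ) ^ (3 / 2 + ε + 1 / 2) := by
    have e3 : (N : ℝ) ^ (3 / 2 + ε + 1 / 2) = (N : ℝ) ^ (1 / 2 + η) * (N : ℝ) ^ (3 / 2 + η) := by
      rw [← Real.rpow_add hN0, hη]
      congr 1
      ring
    rw [hR, e3]
    generalize (N : ℝ) ^ (1 / 2 + η) = u
    generalize (N : ℝ) ^ (3 / 2 + η) = v
    ring
  rw [e1] at g1
  rw [e2] at g2
  exact ⟨g1, g2⟩

theorem inv_eq {X : ℝ} (hX : 0 < X) : Pool.Agent.Y728.AK.JAll ℚ X = Invariants X := by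
  classical
  ext j
  refine and_congr_right fun h0 => and_congr_right fun h1 => ?_
  have e : Pool.Agent.Y728.AK.jcnt j = Real.log (nearPrimes j) := by
    unfold Pool.Agent.Y728.AK.jcnt
    exact Pool.Agent.J4.H57.SH.finsum_prv (fun v => Pool.Agent.Y728.AK.JNear j v)
      (Pool.Agent.J4.H57.SH.jM_ne h0 h1) (Pool.Agent.J4.H57.SH.near_iff h0 h1)
  rw [e]
  have h2 : 0 < nearPrimes j := by
    unfold nearPrimes rad
    exact prod_pos fun p hp => (Nat.prime_of_mem_primeFactors hp).pos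
  exact Real.log_le_log_iff (by exact_mod_cast h2) hX

/-- **Theorem.** (1) The number of the invariants of size at most `X` is `X ^ (2 / 3 + o(1))`.
(2) For every `ε > 0` there are `ν > 0`, `C > 0` and an exceptional set `E` with at most
`C X ^ (2 / 3 - ν)` elements of size at most `X`, for all `X ≥ 1`, such that
`Holds (3 / 2 + ε) C j` for ALL `j ∉ E` except `0` and `1728`. -/
theorem result :
    (∀ δ : ℝ, 0 < δ → ∃ X₀ : ℝ, ∀ X : ℝ, X₀ ≤ X → (Invariants X).Finite ∧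
      X ^ (2 / 3 - δ) ≤ ((Invariants X).ncard : ℝ) ∧
      ((Invariants X).ncard : ℝ) ≤ X ^ (2 / 3 + δ)) ∧
    ∀ ε : ℝ, 0 < ε → ∃ (ν C : ℝ) (E : Set ℚ), 0 < ν ∧ 0 < C ∧
      (∀ X : ℝ, 1 ≤ X → (((E ∩ Invariants X).ncard : ℕ) : ℝ) ≤ C * X ^ (2 / 3 - ν)) ∧
      ∀ j : ℚ, j ≠ 0 → j ≠ 1728 → j ∉ E → Holds (3 / 2 + ε) C j := by
  constructor
  · intro δ hδ
    obtain ⟨C, hC⟩ := Pool.Agent.Y728.AK.j_all ℚ (δ / 2) (by positivity)
    obtain ⟨X₁, hX₁, hlow⟩ := Pool.Agent.Y728.AK.j_low ℚ δ hδ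
    obtain ⟨X₂, hX₂⟩ := eventually_atTop.1
      ((tendsto_rpow_atTop (by positivity : 0 < δ / 2)).eventually_ge_atTop C)
    refine ⟨max X₁ X₂, fun X hX => ?_⟩
    have h1 : X₁ ≤ X := (le_max_left _ _).trans hX
    have h2 : X₂ ≤ X := (le_max_right _ _).trans hX
    have h3 : 1 ≤ X := hX₁.trans h1
    have h0 : 0 < X := by linarith
    obtain ⟨f1, f2⟩ := hC X h3
    have f3 := hlow X h1
    rw [inv_eq h0] at f1 f2 f3
    refine ⟨f1, f3, f2.trans ?_⟩
    calc C * X ^ (2 / 3 + δ / 2) ≤ X ^ (δ / 2) * X ^ (2 / 3 + δ / 2) :=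
          mul_le_mul_of_nonneg_right (hX₂ X h2) (by positivity)
      _ = X ^ (2 / 3 + δ) := by
          rw [← Real.rpow_add h0]
          congr 1
          ring
  · intro ε hε
    obtain ⟨κ, C₁, hκ0, hκ1, hC₁, hold⟩ := holds_of hε
    obtain ⟨ν, C₂, hν, -, hC₂, E, hE, hE'⟩ := Pool.Agent.Y728.AK.j_exc ℚ hκ0 0
    refine ⟨ν, max C₁ C₂, E, hν, lt_max_of_lt_left hC₁, fun X hX => ?_, fun j h0 h1 hj => ?_⟩
    · obtain ⟨-, f2⟩ := hE X hX
      rw [inv_eq (by linarith)] at f2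
      exact f2.trans (mul_le_mul_of_nonneg_right (le_max_right _ _)
        (Real.rpow_nonneg (by linarith) _))
    · have h2 := hE' j h0 h1 hj
      have e : Pool.Agent.Y728.AK.jbad j = Real.log (rad j.den) := by
        classical
        unfold Pool.Agent.Y728.AK.jbad
        exact Pool.Agent.J4.H57.SH.finsum_prv _ j.den_nz
          (fun v => Pool.Agent.J4.H57.SH.one_lt_prv_iff v j)
      rw [e, add_zero, Rat.logHeight₁_eq_log_max] at h2
      have h3 := hold j h0 h2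
      intro W hW hWj N a ρ hN hA Ω₁ Ω₂ hb p q r s hdet hr
      obtain ⟨k1, k2⟩ := h3 W hW hWj N a ρ hN hA Ω₁ Ω₂ hb p q r s hdet hr
      have hρ := hA.pos
      have hNR : (1 : ℝ) ≤ N := by exact_mod_cast hN
      have e1 : C₁ * ρ * (N : ℝ) ^ (3 / 2 + ε) ≤ max C₁ C₂ * ρ * (N : ℝ) ^ (3 / 2 + ε) :=
        mul_le_mul_of_nonneg_right (mul_le_mul_of_nonneg_right (le_max_left _ _) hρ.le)
          (by positivity)
      have e2 : C₁ * ρ * (N : ℝ) ^ (3 / 2 + ε + 1 / 2) ≤
          max C₁ C₂ * ρ * (N : ℝ) ^ (3 / 2 + ε + 1 / 2) :=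
        mul_le_mul_of_nonneg_right (mul_le_mul_of_nonneg_right (le_max_left _ _) hρ.le)
          (by positivity)
      refine ⟨fun hrN m n hmn => ?_, fun hr0 m n hmn => ?_⟩
      · obtain ⟨a1, a2⟩ := k1 hrN m n hmn
        exact ⟨a1.trans e1, a2.trans e1⟩
      · obtain ⟨a1, a2⟩ := k2 hr0 m n hmn
        have hlog : 0 ≤ 1 + Real.log |(r : ℝ)| := by
          have h1 : (1 : ℝ) ≤ |(r : ℝ)| := by exact_mod_cast Int.one_le_abs hr0
          have := Real.log_nonneg h1
          linarith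
        have e3 := mul_le_mul_of_nonneg_right e2 hlog
        exact ⟨a1.trans e3, a2.trans e3⟩

end Pool.Agent.Results.MP_bde085_nt.AlmostAllInvariants
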