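import Pool.Agent.J4.H57.SH.Fol
import Pool.Agent.R559.NP.Near

/-!
# The Shimura maps of the newforms of all families of elliptic curves at all parameters near a point

Q1 asks for constants `κ`, `C` such that the coordinates of `H(γ)` in the basis `Ω₁`, `Ω₂` are at most
`C N ^ κ`, for all newforms `f` of level `N` with integral coefficients and all `γ ∈ Γ₀(N)` with lower
left entry `|r| ≤ N ^ 2`.

Let `φ` be any map of the rational numbers to a metric space `X`, for example the inclusion in `ℝ` or in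
`ℚ_p`, and `δ > 0`.  There is ONE exceptional set of points `ξ ∈ X`, of Hausdorff dimension at most
`δ`, outside of which the following holds for ALL rational functions `J` over `ℚ` with at least two
poles, of any degree `d`, and all `τ > 0`, `κ > 17 / 12 + 4 (d + 1) / (3 δ τ)` and `M`: for all but
finitely many `t ∈ ℚ` with distance `|φ(t) - ξ| ≤ M H(t) ^ (- τ)` the function `J` has no pole at `t` and
for ALL elliptic curves `E` over `ℚ` of invariant `J(t)` (all quadratic twists) the newform `f` of `E`,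
of level the conductor `N`, satisfies

* `|m(γ)|, |n(γ)| ≤ ρ N ^ κ` for all `γ ∈ Γ₀(N)` with lower left entry `|r| ≤ N ^ 2`,
* `|m(γ)|, |n(γ)| ≤ ρ N ^ (κ + 1 / 2) (1 + log |r|)` for ALL `γ ∈ Γ₀(N)` with lower left entry
  `r ≠ 0`.

For the functions with one pole, for example `J(t) = t`, the same holds with `τ > 0` fixed and the
dimension `1 / τ + δ`; so for almost all real numbers `ξ` the bounds of Q1 hold with a fixed exponent at
all but finitely many convergents of `ξ`.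

Here `ρ` is the Manin constant of `E`: the parametrisation of `E` by the modular curve pulls the
Néron differential back to `± ρ 2 π i f(z) dz`, so that `ρ H(γ)` is in the lattice of the periods of
the Néron differential, whose invariants are `g₂ = c₄ / 12`, `g₃ = c₆ / 216` for the minimal
equation of `E`.

Proof.  The starting library (`Pool.Agent.N365.FH.C`, helper365) shows that for all but `O(B ^ ε)`
(`O(B ^ (1 + ε))`) rational numbers `t` of height at most `B` there are primes `l ≥ 5` with product at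
least `B ^ (ε / 16)` at which `J(t)` has a pole.  `|H(γ)| ≤ C |r| ^ (1 / 2 + ε)` by Weil's bound for the
coefficients and the periods are bounded from below by the height (`Pool.Agent.J4.H57.SH`,
`Pool.Agent.N365.SM`).  The points near which there are infinitely many elements of a thin set form a
set of small dimension (`Pool.Agent.R559.NP`, helper559).
-/

set_option autoImplicit false

namespace Pool.Agent.Results.MP_bde085_nt.FamiliesNearAPoint

open Polynomial MeasureTheory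
open Pool.Agent.TH133.SH (IsNewform IsBasis CoordBound Hval)

/-- `W` is a global minimal Weierstrass equation: `Δ ≠ 0`, and `|Δ|` is smallest among all integral
Weierstrass equations that are obtained from `W` by a change of variables over `ℚ` -/
def IsGlobalMinimal (W : WeierstrassCurve ℤ) : Prop :=
  W.Δ ≠ 0 ∧ ∀ W' : WeierstrassCurve ℤ,
    (∃ C : WeierstrassCurve.VariableChange ℚ,
      C • W.map (Int.castRingHom ℚ) = W'.map (Int.castRingHom ℚ)) → |W.Δ| ≤ |W'.Δ|

/-- the product over the primes `p ≥ 5` dividing `Δ` of `p` (multiplicative reduction, `p ∤ c₄`) or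
`p²` (additive, `p ∣ c₄`) -/
def conductor6 (W : WeierstrassCurve ℤ) : ℕ :=
  ∏ p ∈ W.Δ.natAbs.primeFactors.filter (fun p => 5 ≤ p), if (p : ℤ) ∣ W.c₄ then p ^ 2 else p

/-- the number of the solutions modulo `p` of the affine equation `W` -/
noncomputable def affineCount (W : WeierstrassCurve ℤ) (p : ℕ) : ℕ :=
  {P : ZMod p × ZMod p | P.2 ^ 2 + (W.a₁ : ZMod p) * P.1 * P.2 + (W.a₃ : ZMod p) * P.2 =
    P.1 ^ 3 + (W.a₂ : ZMod p) * P.1 ^ 2 + (W.a₄ : ZMod p) * P.1 + (W.a₆ : ZMod p)}.ncard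

/-- `f = ∑ a(n) q ^ n` is the newform of level `N` of the elliptic curve with the global minimal
equation `W`, and `ρ` is the Manin constant.  By the theorems of Eichler, Shimura, Atkin, Lehner,
Carayol, Wiles and others all newforms of Q1 and all elliptic curves over `ℚ` occur. -/
structure Attached (N : ℕ) (a : ℕ → ℤ) (W : WeierstrassCurve ℤ) (ρ : ℝ) : Prop where
  /-- `f` is a newform of level `N` with integral coefficients, as in Q1 -/
  newform : IsNewform N a
  /-- the level is divisible by the prime-to-6 part of the conductor (it is the conductor) -/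
  level : conductor6 W ∣ N
  /-- the coefficients `a(p)`, for all primes `p`, including those of bad reduction -/
  trace : ∀ p : ℕ, p.Prime → a p = (p : ℤ) - (affineCount W p : ℤ)
  /-- the Euler factors at the primes dividing the level -/
  euler : ∀ p : ℕ, p.Prime → p ∣ N → ∀ n : ℕ, a (p * n) = a p * a n
  pos : 0 < ρ
  /-- `ρ H(γ)` is in the lattice of the periods of the Néron differential `dx / (2y + a₁x + a₃)`,
  which is the lattice with the invariants `g₂ = c₄ / 12` and `g₃ = c₆ / 216` -/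
  periods : ∃ L : PeriodPair, L.g₂ = (W.c₄ : ℂ) / 12 ∧ L.g₃ = (W.c₆ : ℂ) / 216 ∧
    ∀ p q r s : ℤ, p * s - q * r = 1 → (N : ℤ) ∣ r → (ρ : ℂ) * Hval a p q r s ∈ L.lattice

/-- the polynomial bounds for the coordinates `m(γ)`, `n(γ)` of the Shimura maps of the newforms of
all elliptic curves over `ℚ` of invariant `j`, for all `γ ∈ Γ₀(N)` with lower left entry at most
`N ^ 2`, and, with logarithmic growth, for all `γ ∈ Γ₀(N)` -/
def ShimuraBound (κ : ℝ) (j : ℚ) : Prop :=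
  ∀ W : WeierstrassCurve ℤ, IsGlobalMinimal W → (W.c₄ : ℚ) ^ 3 / (W.Δ : ℚ) = j →
    ∀ (N : ℕ) (a : ℕ → ℤ) (ρ : ℝ), 1 ≤ N → Attached N a W ρ → ∀ Ω₁ Ω₂ : ℂ, IsBasis N a Ω₁ Ω₂ →
      ∀ p q r s : ℤ, p * s - q * r = 1 → (N : ℤ) ∣ r →
        (|r| ≤ (N : ℤ) ^ 2 → CoordBound a Ω₁ Ω₂ p q r s (ρ * (N : ℝ) ^ κ)) ∧
        (r ≠ 0 → CoordBound a Ω₁ Ω₂ p q r s
          (ρ * (N : ℝ) ^ (κ + 1 / 2) * (1 + Real.log |(r : ℝ)|)))

/-- `A / D` is a rational function of degree `d ≥ 1` in lowest terms -/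
structure IsFunction (d : ℕ) (A D : ℤ[X]) : Prop where
  pos : 1 ≤ d
  deg_num : A.natDegree ≤ d
  deg_den : D.natDegree ≤ d
  deg : A.natDegree = d ∨ D.natDegree = d
  coprime : IsCoprime (A.map (Int.castRingHom ℚ)) (D.map (Int.castRingHom ℚ))

/-- the number of the different poles on the projective line over `ℂ` of the function `A / D` of
degree `d`: the roots of `D`, and infinity if `deg D < d` -/
noncomputable def poleCount (d : ℕ) (D : ℤ[X]) : ℕ :=
  (D.map (Int.castRingHom ℂ)).roots.toFinset.card + if D.natDegree < d then 1 else 0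

/-- the value of the polynomial `f` at the rational number `t` -/
noncomputable def value (f : ℤ[X]) (t : ℚ) : ℚ := f.eval₂ (Int.castRingHom ℚ) t

/-- `t` is not a pole of `J = A / D` and the polynomial bounds hold for the invariant `J(t)` -/
def HoldsAt (κ : ℝ) (A D : ℤ[X]) (t : ℚ) : Prop :=
  value D t ≠ 0 ∧ ShimuraBound κ (value A t / value D t)

/-- the height of a rational number -/
def height (t : ℚ) : ℕ := max t.num.natAbs t.den

theorem one_le_height (t : ℚ) : (1 : ℝ) ≤ height t := by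
  have : 1 ≤ height t := le_max_of_le_right t.den_pos
  exact_mod_cast this

theorem follows (d : ℕ) {ε κ : ℝ} (hε : 0 < ε) (hκ : 17 / 12 + 4 * (d + 1) / (3 * ε) < κ) :
    Pool.Agent.N365.FH.Follows (ε / 8) (d + 1) (fun _ j => ShimuraBound κ j) := by
  obtain ⟨B₀, hB₀⟩ := Pool.Agent.J4.H57.SH.shimura d hε hκ
  refine ⟨B₀, fun B hB hB1 x y hM hx hy W hW hj N a ρ hN hA Ω₁ Ω₂ hb p q r s hdet hr => ?_⟩
  exact hB₀ B hB hB1 x y hM hx hy W hW hj N a ρ hN
    ⟨hA.newform, hA.level, hA.trace, hA.euler, hA.pos, hA.periods⟩ Ω₁ Ω₂ hb p q r s hdet hr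

theorem mono {κ κ' : ℝ} (h : κ ≤ κ') {A D : ℤ[X]} {t : ℚ} (ht : HoldsAt κ A D t) :
    HoldsAt κ' A D t := by
  refine ⟨ht.1, fun W hW hj N a ρ hN hA Ω₁ Ω₂ hb p q r s hdet hr => ?_⟩
  obtain ⟨k1, k2⟩ := ht.2 W hW hj N a ρ hN hA Ω₁ Ω₂ hb p q r s hdet hr
  have hρ := hA.pos
  have hNR : (1 : ℝ) ≤ N := by exact_mod_cast hN
  have e1 : ρ * (N : ℝ) ^ κ ≤ ρ * (N : ℝ) ^ κ' :=
    mul_le_mul_of_nonneg_left (Real.rpow_le_rpow_of_exponent_le hNR h) hρ.le
  have e2 : ρ * (N : ℝ) ^ (κ + 1 / 2) ≤ ρ * (N : ℝ) ^ (κ' + 1 / 2) :=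
    mul_le_mul_of_nonneg_left (Real.rpow_le_rpow_of_exponent_le hNR (by linarith)) hρ.le
  refine ⟨fun hrN m' n' hmn => ?_, fun hr0 m' n' hmn => ?_⟩
  · obtain ⟨a1, a2⟩ := k1 hrN m' n' hmn
    exact ⟨a1.trans e1, a2.trans e1⟩
  · obtain ⟨a1, a2⟩ := k2 hr0 m' n' hmn
    have hlog : 0 ≤ 1 + Real.log |(r : ℝ)| := by
      have h1 : (1 : ℝ) ≤ |(r : ℝ)| := by exact_mod_cast Int.one_le_abs hr0
      have := Real.log_nonneg h1
      linarith
    have e3 := mul_le_mul_of_nonneg_right e2 hlog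
    exact ⟨a1.trans e3, a2.trans e3⟩

theorem countable_poly : Countable ℤ[X] := by
  rw [← Cardinal.mk_le_aleph0_iff]
  refine Polynomial.cardinalMk_le_max.trans ?_
  simp

/-- one function and one exponent -/
theorem one {X : Type} [MetricSpace X] (φ : ℚ → X) {d : ℕ} {A D : ℤ[X]} (h : IsFunction d A D)
    {ε s τ κ : ℝ} (hε : 0 < ε) (hκ : 17 / 12 + 4 * (d + 1) / (3 * ε) < κ) (hτ : 0 < τ)
    (hs : (if 2 ≤ poleCount d D then ε else 1 + ε) ≤ s) :
    ∃ E : Set X, dimH E ≤ ENNReal.ofReal (s / τ) ∧ ∀ ξ : X, ξ ∉ E → ∀ M : ℝ,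
      {t : ℚ | dist (φ t) ξ ≤ M * (height t : ℝ) ^ (-τ) ∧ ¬ HoldsAt κ A D t}.Finite := by
  have hs0 : 0 ≤ s := by
    refine le_trans ?_ hs
    split_ifs <;> linarith
  have hR : Pool.Agent.N365.LS.Rat d A D := ⟨h.pos, h.deg_num, h.deg_den, h.deg, h.coprime⟩
  have hpole : poleCount d D = Pool.Agent.N365.LS.poleCount d D := rfl
  obtain ⟨C, hC⟩ := Pool.Agent.N365.FH.few_rat hR hε (follows d hε hκ)
  refine Pool.Agent.R559.NP.near_dim (T := ℚ) (X := X) (H := fun t => (height t : ℝ))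
    one_le_height hs0 hτ (fun ε' hε' => ⟨max C 0, fun B hB => ?_⟩) φ
  obtain ⟨b, hb⟩ : ∃ b : ℕ, b = ⌊B⌋₊ := ⟨_, rfl⟩
  have hb1 : 1 ≤ b := by rw [hb]; exact (Nat.one_le_floor_iff _).2 hB
  have hbB : (b : ℝ) ≤ B := by rw [hb]; exact Nat.floor_le (by linarith)
  have hb1R : (1 : ℝ) ≤ b := by exact_mod_cast hb1
  have hbox : {t : ℚ | |t.num| ≤ (b : ℤ) ∧ t.den ≤ b}.Finite := by
    have hinj : Function.Injective (fun t : ℚ => (t.num, t.den)) := by
      intro x y hxy
      rw [Prod.mk.injEq] at hxy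
      exact Rat.ext hxy.1 hxy.2
    refine Set.Finite.of_finite_image (f := fun t : ℚ => (t.num, t.den)) ?_ hinj.injOn
    refine ((Set.finite_Icc (-(b : ℤ)) b).prod (Set.finite_Icc 0 b)).subset ?_
    rintro _ ⟨t, ⟨h1, h2⟩, rfl⟩
    exact ⟨abs_le.1 h1, Nat.zero_le _, h2⟩
  have hsub : {t : ℚ | ¬ HoldsAt κ A D t ∧ (height t : ℝ) ≤ B} ⊆
      {t : ℚ | |t.num| ≤ b ∧ t.den ≤ b ∧ ¬ HoldsAt κ A D t} := by
    rintro t ⟨h1, h2⟩
    have h3 : height t ≤ b := by rw [hb]; exact Nat.le_floor h2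
    refine ⟨?_, (le_max_right _ _).trans h3, h1⟩
    have h4 : t.num.natAbs ≤ b := (le_max_left _ _).trans h3
    rw [Int.abs_eq_natAbs]
    exact_mod_cast h4
  have hfin : {t : ℚ | |t.num| ≤ (b : ℤ) ∧ t.den ≤ b ∧ ¬ HoldsAt κ A D t}.Finite :=
    hbox.subset fun t ht => ⟨ht.1, ht.2.1⟩
  refine ⟨hfin.subset hsub, ?_⟩
  have h1 : (({t : ℚ | ¬ HoldsAt κ A D t ∧ (height t : ℝ) ≤ B}.ncard : ℕ) : ℝ) ≤
      ({t : ℚ | |t.num| ≤ b ∧ t.den ≤ b ∧ ¬ HoldsAt κ A D t}.ncard : ℝ) := by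
    exact_mod_cast Set.ncard_le_ncard hsub hfin
  refine h1.trans ((hC b hb1).trans (mul_le_mul (le_max_left _ _) ?_ (by positivity)
    (le_max_right _ _)))
  rw [← hpole]
  calc (b : ℝ) ^ (if 2 ≤ poleCount d D then ε else 1 + ε) ≤ (b : ℝ) ^ (s + ε') :=
        Real.rpow_le_rpow_of_exponent_le hb1R (by linarith)
    _ ≤ B ^ (s + ε') := Real.rpow_le_rpow (by linarith) hbB (by linarith)

/-- **Theorem.** Let `φ` be a map of the rational numbers to a metric space and `δ > 0`.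
(1) There is a set `E` of Hausdorff dimension at most `δ` such that for all `ξ ∉ E`, all rational
functions `A / D` with at least two poles, of any degree `d`, and all `τ > 0`,
`κ > 17 / 12 + 4 (d + 1) / (3 δ τ)` and `M`, the bounds hold with exponent `κ` at all but finitely many
`t ∈ ℚ` with `dist (φ t) ξ ≤ M H(t) ^ (- τ)`.
(2) For every `τ > 0` there is a set `E` of Hausdorff dimension at most `1 / τ + δ` such that for all
`ξ ∉ E`, all rational functions `A / D`, of any degree `d ≥ 1`, and all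
`κ > 17 / 12 + 4 (d + 1) / (3 δ τ)` and `M`, the bounds hold with exponent `κ` at all but finitely many
`t ∈ ℚ` with `dist (φ t) ξ ≤ M H(t) ^ (- τ)`. -/
theorem result (X : Type) [MetricSpace X] (φ : ℚ → X) (δ : ℝ) (hδ : 0 < δ) :
    (∃ E : Set X, dimH E ≤ ENNReal.ofReal δ ∧ ∀ ξ : X, ξ ∉ E →
      ∀ (d : ℕ) (A D : ℤ[X]), IsFunction d A D → 2 ≤ poleCount d D → ∀ τ κ M : ℝ, 0 < τ →
        17 / 12 + 4 * (d + 1) / (3 * (δ * τ)) < κ →
        {t : ℚ | dist (φ t) ξ ≤ M * (height t : ℝ) ^ (-τ) ∧ ¬ HoldsAt κ A D t}.Finite) ∧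
    ∀ τ : ℝ, 0 < τ → ∃ E : Set X, dimH E ≤ ENNReal.ofReal (1 / τ + δ) ∧ ∀ ξ : X, ξ ∉ E →
      ∀ (d : ℕ) (A D : ℤ[X]), IsFunction d A D → ∀ κ M : ℝ,
        17 / 12 + 4 * (d + 1) / (3 * (δ * τ)) < κ →
        {t : ℚ | dist (φ t) ξ ≤ M * (height t : ℝ) ^ (-τ) ∧ ¬ HoldsAt κ A D t}.Finite := by
  have := countable_poly
  constructor
  · have h0 : ∀ (d : ℕ) (A D : ℤ[X]) (q k : ℚ), ∃ E : Set X, dimH E ≤ ENNReal.ofReal δ ∧
        (IsFunction d A D → 2 ≤ poleCount d D → 0 < q →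
          17 / 12 + 4 * ((d : ℝ) + 1) / (3 * (δ * q)) < k → ∀ ξ : X, ξ ∉ E → ∀ M : ℝ,
          {t : ℚ | dist (φ t) ξ ≤ M * (height t : ℝ) ^ (-(q : ℝ)) ∧ ¬ HoldsAt k A D t}.Finite) := by
      intro d A D q k
      by_cases h1 : IsFunction d A D ∧ 2 ≤ poleCount d D ∧ 0 < q ∧
          17 / 12 + 4 * ((d : ℝ) + 1) / (3 * (δ * q)) < k
      · obtain ⟨g1, g2, g3, g4⟩ := h1
        have hq : (0 : ℝ) < q := by exact_mod_cast g3
        obtain ⟨E, hE, hE'⟩ := one φ g1 (ε := δ * q) (s := δ * q) (τ := q) (by positivity) g4 hq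
          (by rw [if_pos g2])
        refine ⟨E, ?_, fun _ _ _ _ => hE'⟩
        rw [mul_div_assoc, div_self hq.ne', mul_one] at hE
        exact hE
      · exact ⟨∅, by rw [dimH_empty]; exact zero_le, fun g1 g2 g3 g4 =>
          absurd ⟨g1, g2, g3, g4⟩ h1⟩
    choose E hE hE' using h0
    refine ⟨⋃ d, ⋃ A, ⋃ D, ⋃ q, ⋃ k, E d A D q k, ?_, fun ξ hξ d A D h1 h2 τ κ M hτ hκ => ?_⟩
    · simp only [dimH_iUnion]
      exact iSup_le fun d => iSup_le fun A => iSup_le fun D => iSup_le fun q => iSup_le fun k =>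
        hE d A D q k
    · obtain ⟨q, hq1, hq2, hq3⟩ : ∃ q : ℚ, 0 < q ∧ (q : ℝ) < τ ∧
          17 / 12 + 4 * ((d : ℝ) + 1) / (3 * (δ * q)) < κ := by
        have hcont : ContinuousAt (fun x : ℝ => 17 / 12 + 4 * ((d : ℝ) + 1) / (3 * (δ * x))) τ := by
          refine ContinuousAt.add continuousAt_const (ContinuousAt.div continuousAt_const
            (by fun_prop) (by positivity))
        have hev : ∀ᶠ x in nhds τ, 17 / 12 + 4 * ((d : ℝ) + 1) / (3 * (δ * x)) < κ :=
          hcont.eventually_lt continuousAt_const hκ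
        have hev2 : ∀ᶠ x in nhds τ, 0 < x := eventually_gt_nhds hτ
        obtain ⟨l, u, hlu, hsub⟩ := mem_nhds_iff_exists_Ioo_subset.1 (hev.and hev2)
        obtain ⟨q, hq1, hq2⟩ := exists_rat_btwn hlu.1
        have h3 := hsub (show (q : ℝ) ∈ Set.Ioo l u from ⟨hq1, hq2.trans hlu.2⟩)
        exact ⟨q, by exact_mod_cast h3.2, hq2, h3.1⟩
      obtain ⟨k, hk1, hk2⟩ := exists_rat_btwn hq3
      have hξ' : ξ ∉ E d A D q k := fun hmem => hξ
        (Set.mem_iUnion.2 ⟨d, Set.mem_iUnion.2 ⟨A, Set.mem_iUnion.2 ⟨D, Set.mem_iUnion.2 ⟨q,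
          Set.mem_iUnion.2 ⟨k, hmem⟩⟩⟩⟩⟩)
      refine (hE' d A D q k h1 h2 hq1 hk1 ξ hξ' (max M 0)).subset ?_
      rintro t ⟨g1, g2⟩
      refine ⟨g1.trans ?_, fun g3 => g2 (mono hk2.le g3)⟩
      exact mul_le_mul (le_max_left _ _)
        (Real.rpow_le_rpow_of_exponent_le (one_le_height t) (by linarith)) (by positivity)
        (le_max_right _ _)
  · intro τ hτ
    have h0 : ∀ (d : ℕ) (A D : ℤ[X]) (k : ℚ), ∃ E : Set X, dimH E ≤ ENNReal.ofReal (1 / τ + δ) ∧
        (IsFunction d A D → 17 / 12 + 4 * ((d : ℝ) + 1) / (3 * (δ * τ)) < k → ∀ ξ : X, ξ ∉ E →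
          ∀ M : ℝ, {t : ℚ | dist (φ t) ξ ≤ M * (height t : ℝ) ^ (-τ) ∧
            ¬ HoldsAt k A D t}.Finite) := by
      intro d A D k
      by_cases h1 : IsFunction d A D ∧ 17 / 12 + 4 * ((d : ℝ) + 1) / (3 * (δ * τ)) < k
      · obtain ⟨g1, g4⟩ := h1
        obtain ⟨E, hE, hE'⟩ := one φ g1 (ε := δ * τ) (s := 1 + δ * τ) (τ := τ) (by positivity)
          g4 hτ (by split_ifs <;> linarith)
        refine ⟨E, ?_, fun _ _ => hE'⟩
        have e : (1 + δ * τ) / τ = 1 / τ + δ := by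
          field_simp
        rw [e] at hE
        exact hE
      · exact ⟨∅, by rw [dimH_empty]; exact zero_le, fun g1 g4 => absurd ⟨g1, g4⟩ h1⟩
    choose E hE hE' using h0
    refine ⟨⋃ d, ⋃ A, ⋃ D, ⋃ k, E d A D k, ?_, fun ξ hξ d A D h1 κ M hκ => ?_⟩
    · simp only [dimH_iUnion]
      exact iSup_le fun d => iSup_le fun A => iSup_le fun D => iSup_le fun k => hE d A D k
    · obtain ⟨k, hk1, hk2⟩ := exists_rat_btwn hκ
      have hξ' : ξ ∉ E d A D k := fun hmem => hξ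
        (Set.mem_iUnion.2 ⟨d, Set.mem_iUnion.2 ⟨A, Set.mem_iUnion.2 ⟨D,
          Set.mem_iUnion.2 ⟨k, hmem⟩⟩⟩⟩)
      refine (hE' d A D k h1 hk1 ξ hξ' M).subset ?_
      rintro t ⟨g1, g2⟩
      exact ⟨g1, fun g3 => g2 (mono hk2.le g3)⟩

end Pool.Agent.Results.MP_bde085_nt.FamiliesNearAPoint
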