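import Pool.Agent.J4.H57.SH.Cur
import Pool.Agent.Y679.Fh.Bd

/-!
# The Shimura maps of almost all newforms with full rational two-torsion, ordered by the level

Q1 asks for constants `κ`, `C` such that the coordinates `m(γ)`, `n(γ)` of `H(γ)` in the basis `Ω₁`, `Ω₂`
are at most `C N ^ κ`, for all newforms `f` of level `N` with integral coefficients and all
`γ ∈ Γ₀(N)` with entries at most `N ^ 2`.

We consider ALL elliptic curves over `ℚ` with full rational two-torsion (of all heights, all quadratic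
twists), ordered by the level of their newforms, the conductor.  There are `≍ X ^ (2 / 3)` of them with
conductor at most `X`.  For `T ≥ 1` all but a proportion `O(T ^ (- t) + X ^ (- η))`, for every `t < 2`,
have the following property: for the newform `f` of level `N` of the curve

* `|m(γ)|, |n(γ)| ≤ T ρ N ^ (7 / 6 + ε)` for all `γ ∈ Γ₀(N)` with lower left entry `|r| ≤ N ^ 2`,
* `|m(γ)|, |n(γ)| ≤ T ρ N ^ (5 / 3 + ε) (1 + log |r|)` for ALL `γ ∈ Γ₀(N)` with lower left entry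
  `r ≠ 0`.

In particular the bounds of Q1 hold with every exponent `κ > 7 / 6` for all newforms of these curves
except for those of `O(X ^ (2 / 3 - η))` curves of conductor at most `X`.

Here `ρ` is the Manin constant of the curve `E`: the parametrisation of `E` by the modular curve pulls
the Néron differential back to `± ρ 2 π i f(z) dz`, so that `ρ H(γ)` is in the lattice of the periods
of the Néron differential, whose invariants are `g₂ = c₄ / 12`, `g₃ = c₆ / 216` for the minimal equation.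

Proof.  Weil's bound (starting library `H341R2`) gives `|a(n)| ≤ (3 / 2) n ^ (1 / 2) 2 ^ Ω(n)` up to a
smaller factor at the prime 2, so that `∑ |a(n)| n ^ (- 3 / 2 - ε)` is bounded by a constant which
depends on `ε` only, and `|H(γ)| ≤ C |r| ^ (1 / 2 + ε)` (`Pool.Agent.J4.H57.SH`).  All non-zero periods
are at least `2 / (3 R)` if `max (|c₄| ^ 3, c₆ ^ 2) ≤ R ^ 12` (`Pool.Agent.N365.SM`, helper365), and
`max (|c₄| ^ 3, c₆ ^ 2) ≤ K N ^ 2` for all but a proportion `O(K ^ (- σ) + X ^ (- η))`, `σ < 1 / 6`, of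
the curves (`Pool.Agent.Y679`, helper679).
-/

set_option autoImplicit false

namespace Pool.Agent.Results.MP_bde085_nt.FullTwoTorsionByLevel

open Filter Topology
open Pool.Agent.TH133.SH (IsNewform IsBasis CoordBound Hval)

/-- the discriminant of `x³ - a x - b` -/
def Disc (a b : ℤ) : ℤ := 4 * a ^ 3 - 27 * b ^ 2

/-- `y² = x³ - a x - b` is an elliptic curve and `|Disc|` is least among the integral models
`y² = x³ - a' x - b'`, `a' = u⁴ a`, `b' = u⁶ b`, `u ∈ ℚ^×`. Every elliptic curve over `ℚ` has exactly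
one such model. -/
def IsMinimal (a b : ℤ) : Prop :=
  Disc a b ≠ 0 ∧ ∀ (u : ℚ) (a' b' : ℤ), u ≠ 0 → (a' : ℚ) = u ^ 4 * a → (b' : ℚ) = u ^ 6 * b →
    |Disc a b| ≤ |Disc a' b'|

/-- all 2-torsion points are rational: `x³ - a x - b` splits over `ℚ` -/
def FullTwoTorsion (a b : ℤ) : Prop :=
  ∃ r₁ r₂ r₃ : ℚ, ∀ x : ℚ, x ^ 3 - a * x - b = (x - r₁) * (x - r₂) * (x - r₃)

/-- the prime-to-6 part of the conductor of a minimal model: the product over the primes `p ≥ 5`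
dividing `Disc` of `p` (multiplicative reduction: `p ∤ a`) or `p²` (additive reduction: `p ∣ a`) -/
def Cond6 (a b : ℤ) : ℕ :=
  ∏ p ∈ (Disc a b).natAbs.primeFactors.filter (fun p => 5 ≤ p), if (p : ℤ) ∣ a then p ^ 2 else p

/-- the admissible factors: functions with values between `1` and `2 ^ 8 * 3 ^ 5`, for instance the
part of the conductor composed of the primes 2 and 3 -/
def Factor (f : ℤ × ℤ → ℕ) : Prop := ∀ q, 1 ≤ f q ∧ f q ≤ 2 ^ 8 * 3 ^ 5

/-- the minimal models with full 2-torsion and `f * Cond6 ≤ X` (for a suitable factor `f`: the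
conductor is at most `X`), of all heights -/
def Curves (f : ℤ × ℤ → ℕ) (X : ℝ) : Set (ℤ × ℤ) :=
  {q | IsMinimal q.1 q.2 ∧ FullTwoTorsion q.1 q.2 ∧ ((f q * Cond6 q.1 q.2 : ℕ) : ℝ) ≤ X}

/-- `W` is a global minimal Weierstrass equation: `Δ ≠ 0`, and `|Δ|` is smallest among all integral
Weierstrass equations that are obtained from `W` by a change of variables over `ℚ` -/
def IsGlobalMinimal (W : WeierstrassCurve ℤ) : Prop :=
  W.Δ ≠ 0 ∧ ∀ W' : WeierstrassCurve ℤ,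
    (∃ C : WeierstrassCurve.VariableChange ℚ,
      C • W.map (Int.castRingHom ℚ) = W'.map (Int.castRingHom ℚ)) → |W.Δ| ≤ |W'.Δ|

/-- `W` is a global minimal equation of the curve `y² = x³ - q.1 x - q.2` -/
def MinimalEquation (W : WeierstrassCurve ℤ) (q : ℤ × ℤ) : Prop :=
  IsGlobalMinimal W ∧ ∃ C : WeierstrassCurve.VariableChange ℚ,
    C • W.map (Int.castRingHom ℚ) =
      (⟨0, 0, 0, -q.1, -q.2⟩ : WeierstrassCurve ℤ).map (Int.castRingHom ℚ)

/-- the product over the primes `p ≥ 5` dividing `Δ` of `p` (multiplicative reduction, `p ∤ c₄`) or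
`p²` (additive, `p ∣ c₄`) -/
def conductor6 (W : WeierstrassCurve ℤ) : ℕ :=
  ∏ p ∈ W.Δ.natAbs.primeFactors.filter (fun p => 5 ≤ p), if (p : ℤ) ∣ W.c₄ then p ^ 2 else p

/-- the number of the solutions modulo `p` of the affine equation `W` -/
noncomputable def affineCount (W : WeierstrassCurve ℤ) (p : ℕ) : ℕ :=
  {P : ZMod p × ZMod p | P.2 ^ 2 + (W.a₁ : ZMod p) * P.1 * P.2 + (W.a₃ : ZMod p) * P.2 =
    P.1 ^ 3 + (W.a₂ : ZMod p) * P.1 ^ 2 + (W.a₄ : ZMod p) * P.1 + (W.a₆ : ZMod p)}.ncard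

/-- `f = ∑ a(n) q ^ n` is the newform of level `N` of the elliptic curve with the global minimal
equation `W`, and `ρ` is the Manin constant.  By the theorems of Eichler, Shimura, Atkin, Lehner,
Carayol, Wiles and others all newforms of Q1 and all elliptic curves over `ℚ` occur. -/
structure Attached (N : ℕ) (a : ℕ → ℤ) (W : WeierstrassCurve ℤ) (ρ : ℝ) : Prop where
  /-- `f` is a newform of level `N` with integral coefficients, as in Q1 -/
  newform : IsNewform N a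
  /-- the level is divisible by the prime-to-6 part of the conductor (it is the conductor) -/
  level : conductor6 W ∣ N
  /-- the coefficients `a(p)`, for all primes `p`, including those of bad reduction -/
  trace : ∀ p : ℕ, p.Prime → a p = (p : ℤ) - (affineCount W p : ℤ)
  /-- the Euler factors at the primes dividing the level -/
  euler : ∀ p : ℕ, p.Prime → p ∣ N → ∀ n : ℕ, a (p * n) = a p * a n
  pos : 0 < ρ
  /-- `ρ H(γ)` is in the lattice of the periods of the Néron differential `dx / (2y + a₁x + a₃)`,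
  which is the lattice with the invariants `g₂ = c₄ / 12` and `g₃ = c₆ / 216` -/
  periods : ∃ L : PeriodPair, L.g₂ = (W.c₄ : ℂ) / 12 ∧ L.g₃ = (W.c₆ : ℂ) / 216 ∧
    ∀ p q r s : ℤ, p * s - q * r = 1 → (N : ℤ) ∣ r → (ρ : ℂ) * Hval a p q r s ∈ L.lattice

/-- For the newforms attached to the curve `q`, of any level `N`: the coordinates `m(γ)`, `n(γ)` are at
most `T ρ N ^ κ` for all `γ ∈ Γ₀(N)` with lower left entry at most `N ^ 2` and at most
`T ρ N ^ (κ + 1 / 2) (1 + log |r|)` for all `γ ∈ Γ₀(N)` with lower left entry `r ≠ 0`. -/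
def Holds (κ T : ℝ) (q : ℤ × ℤ) : Prop :=
  ∀ W : WeierstrassCurve ℤ, MinimalEquation W q → ∀ (N : ℕ) (a : ℕ → ℤ) (ρ : ℝ), 1 ≤ N →
    Attached N a W ρ → ∀ Ω₁ Ω₂ : ℂ, IsBasis N a Ω₁ Ω₂ →
      ∀ p q' r s : ℤ, p * s - q' * r = 1 → (N : ℤ) ∣ r →
        (|r| ≤ (N : ℤ) ^ 2 → CoordBound a Ω₁ Ω₂ p q' r s (T * ρ * (N : ℝ) ^ κ)) ∧
        (r ≠ 0 → CoordBound a Ω₁ Ω₂ p q' r s
          (T * ρ * (N : ℝ) ^ (κ + 1 / 2) * (1 + Real.log |(r : ℝ)|)))

theorem att {N : ℕ} {a : ℕ → ℤ} {W : WeierstrassCurve ℤ} {ρ : ℝ} (h : Attached N a W ρ) :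
    Pool.Agent.J4.H57.SH.Att N a W ρ :=
  ⟨h.newform, h.level, h.trace, h.euler, h.pos, h.periods⟩

/-- the bounds hold if the height of the curve is small -/
theorem holds_of {ε : ℝ} (hε : 0 < ε) : ∃ C : ℝ, 0 < C ∧ ∀ (T : ℝ) (q : ℤ × ℤ), 0 < T →
    IsMinimal q.1 q.2 → ((Pool.Agent.Y679.Jl.Hh q : ℤ) : ℝ) ≤
      (T / C) ^ 12 / 27648 * (Cond6 q.1 q.2 : ℝ) ^ 2 → Holds (7 / 6 + ε) T q := by
  obtain ⟨C, hC, h0⟩ := Pool.Agent.J4.H57.SH.att_coords hε
  refine ⟨C, hC, fun T q hT hmin hle W hW N a ρ hN hA Ω₁ Ω₂ hb p q' r s hdet hr => ?_⟩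
  obtain ⟨s1, s2⟩ := Pool.Agent.J4.H57.SH.short_of hW.1 hmin hW.2
  have hNR : (1 : ℝ) ≤ N := by exact_mod_cast hN
  have hN0 : (0 : ℝ) < N := by linarith
  have hcN : (Cond6 q.1 q.2 : ℝ) ≤ N := by
    have h1 : Cond6 q.1 q.2 ≤ N := le_trans s2 (Nat.le_of_dvd hN hA.level)
    exact_mod_cast h1
  obtain ⟨R, hR⟩ : ∃ R : ℝ, R = T / C * (N : ℝ) ^ ((1 : ℝ) / 6) := ⟨_, rfl⟩
  have hR0 : 0 < R := by rw [hR]; positivity
  have e6 : ((N : ℝ) ^ ((1 : ℝ) / 6)) ^ 12 = (N : ℝ) ^ 2 := by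
    rw [← Real.rpow_natCast, ← Real.rpow_mul hN0.le, ← Real.rpow_natCast]
    congr 1
    norm_num
  have hH : max (|(W.c₄ : ℝ)| ^ 3) ((W.c₆ : ℝ) ^ 2) ≤ R ^ 12 := by
    refine s1.trans ?_
    rw [hR, mul_pow, e6]
    have h1 : ((max (4 * |q.1| ^ 3) (27 * q.2 ^ 2) : ℤ) : ℝ) ≤
        (T / C) ^ 12 / 27648 * (Cond6 q.1 q.2 : ℝ) ^ 2 := hle
    have h2 : (Cond6 q.1 q.2 : ℝ) ^ 2 ≤ (N : ℝ) ^ 2 :=
      pow_le_pow_left₀ (Nat.cast_nonneg _) hcN 2
    have h3 : (T / C) ^ 12 / 27648 * (Cond6 q.1 q.2 : ℝ) ^ 2 ≤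
        (T / C) ^ 12 / 27648 * (N : ℝ) ^ 2 := mul_le_mul_of_nonneg_left h2 (by positivity)
    linarith
  obtain ⟨k1, k2⟩ := h0 N a W ρ R Ω₁ Ω₂ hN (att hA) hR0 hH hb p q' r s hdet hr
  have e1 : C * ρ * R * (N : ℝ) ^ (1 + ε) = T * ρ * (N : ℝ) ^ (7 / 6 + ε) := by
    have e3 : (N : ℝ) ^ (7 / 6 + ε) = (N : ℝ) ^ ((1 : ℝ) / 6) * (N : ℝ) ^ (1 + ε) := by
      rw [← Real.rpow_add hN0]
      congr 1
      ring
    have hCne : C ≠ 0 := hC.ne'
    rw [hR, e3]
    calc C * ρ * (T / C * (N : ℝ) ^ ((1 : ℝ) / 6)) * (N : ℝ) ^ (1 + ε)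
        = C * (T / C) * ρ * ((N : ℝ) ^ ((1 : ℝ) / 6) * (N : ℝ) ^ (1 + ε)) := by ring
      _ = _ := by rw [mul_div_cancel₀ T hCne]
  have e2 : C * ρ * R * (N : ℝ) ^ (3 / 2 + ε) = T * ρ * (N : ℝ) ^ (7 / 6 + ε + 1 / 2) := by
    have e3 : (N : ℝ) ^ (7 / 6 + ε + 1 / 2) = (N : ℝ) ^ ((1 : ℝ) / 6) * (N : ℝ) ^ (3 / 2 + ε) := by
      rw [← Real.rpow_add hN0]
      congr 1
      ring
    have hCne : C ≠ 0 := hC.ne'
    rw [hR, e3]
    calc C * ρ * (T / C * (N : ℝ) ^ ((1 : ℝ) / 6)) * (N : ℝ) ^ (3 / 2 + ε)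
        = C * (T / C) * ρ * ((N : ℝ) ^ ((1 : ℝ) / 6) * (N : ℝ) ^ (3 / 2 + ε)) := by ring
      _ = _ := by rw [mul_div_cancel₀ T hCne]
  rw [e1] at k1
  rw [e2] at k2
  exact ⟨k1, k2⟩

/-- **Theorem.** Order all elliptic curves over `ℚ` with full rational 2-torsion by the conductor
(`f * N₆`, where `f` is an arbitrary factor as in `Factor`), with no bound on the heights.
(1) The number of the curves of conductor at most `X` is between `c₁ X ^ (2/3)` and `C₁ X ^ (2/3)` for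
large `X`.
(2) For `ε > 0` and `0 < t < 2` there are `η > 0` and `C` such that for all `X, T ≥ 1` all but at most
`C (T ^ (- t) X ^ (2/3) + X ^ (2/3 - η))` of the curves of conductor at most `X` satisfy
`Holds (7 / 6 + ε) T`.
(3) For every `κ > 7 / 6` there are `η > 0` and `C` such that all but at most `C X ^ (2/3 - η)` of the
curves of conductor at most `X` satisfy `Holds κ 1`. -/
theorem result :
    (∃ c₁ C₁ : ℝ, 0 < c₁ ∧ ∀ f : ℤ × ℤ → ℕ, Factor f → (∀ X : ℝ, 1 ≤ X → (Curves f X).Finite) ∧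
      ∀ᶠ X : ℝ in atTop, c₁ * X ^ ((2 : ℝ) / 3) ≤ ((Curves f X).ncard : ℝ) ∧
        ((Curves f X).ncard : ℝ) ≤ C₁ * X ^ ((2 : ℝ) / 3)) ∧
    (∀ ε t : ℝ, 0 < ε → 0 < t → t < 2 → ∃ η C : ℝ, 0 < η ∧ ∀ f : ℤ × ℤ → ℕ, Factor f →
      ∀ X T : ℝ, 1 ≤ X → 1 ≤ T → (({q | q ∈ Curves f X ∧ ¬ Holds (7 / 6 + ε) T q}.ncard : ℕ) : ℝ) ≤
        C * (T ^ (-t) * X ^ ((2 : ℝ) / 3) + X ^ (2 / 3 - η))) ∧
    ∀ κ : ℝ, 7 / 6 < κ → ∃ η C : ℝ, 0 < η ∧ ∀ f : ℤ × ℤ → ℕ, Factor f →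
      ∀ X : ℝ, 1 ≤ X → (({q | q ∈ Curves f X ∧ ¬ Holds κ 1 q}.ncard : ℕ) : ℝ) ≤
        C * X ^ (2 / 3 - η) := by
  have hlam : ∀ f : ℤ × ℤ → ℕ, Factor f → ∀ q : ℤ × ℤ, IsMinimal q.1 q.2 →
      FullTwoTorsion q.1 q.2 → 1 ≤ f q ∧ f q ≤ 62208 :=
    fun f hf q _ _ => ⟨(hf q).1, (hf q).2.trans (by norm_num)⟩
  have hfin : ∀ f : ℤ × ℤ → ℕ, Factor f → ∀ N : ℝ, 1 ≤ N → (Curves f N).Finite :=
    fun f hf N hN => Pool.Agent.Y679.Par.Md_fin (fun q a b => (hlam f hf q a b).1) hN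
  obtain ⟨c₀, C1, hc₀, hC1, hg⟩ := Pool.Agent.Y679.Fh.Hg_ge
  obtain ⟨C2, hC2, hmd⟩ := Pool.Agent.Y679.Fh.Md_up
  have hup : ∀ f : ℤ × ℤ → ℕ, Factor f → ∀ X : ℝ, 1 ≤ X →
      ((Curves f X).ncard : ℝ) ≤ C2 * X ^ ((2 : ℝ) / 3) :=
    fun f hf X hX => hmd f (fun q a b => (hlam f hf q a b).1) X hX
  have hcnt : ∀ f : ℤ × ℤ → ℕ, Factor f → ∀ N : ℝ, max C1 1 ≤ N →
      c₀ * N ^ ((2 : ℝ) / 3) ≤ ((Curves f N).ncard : ℝ) := by
    intro f hf N hN
    have hN1 : 1 ≤ N := (le_max_right _ _).trans hN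
    have h1 := hg f (hlam f hf) N 0 le_rfl (by
      rw [mul_zero, Real.exp_zero, mul_one]
      exact (le_max_left _ _).trans hN)
    rw [mul_zero, neg_zero, Real.exp_zero, one_mul] at h1
    exact h1.trans (Nat.cast_le.2 (Set.ncard_le_ncard (fun q hq => hq.1) (hfin f hf N hN1)))
  have main : ∀ ε t : ℝ, 0 < ε → 0 < t → t < 2 → ∃ η C : ℝ, 0 < η ∧ 0 < C ∧
      ∀ f : ℤ × ℤ → ℕ, Factor f → ∀ X T : ℝ, 1 ≤ X → 1 ≤ T →
      (({q | q ∈ Curves f X ∧ ¬ Holds (7 / 6 + ε) T q}.ncard : ℕ) : ℝ) ≤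
        C * (T ^ (-t) * X ^ ((2 : ℝ) / 3) + X ^ (2 / 3 - η)) := by
    intro ε t hε ht0 ht2
    obtain ⟨C, hC, hH⟩ := holds_of hε
    obtain ⟨η, C3, hη, hC3, h3⟩ := Pool.Agent.Y679.Jl.H_le (σ := t / 12) (by positivity)
      (by linarith)
    obtain ⟨T0, hT0⟩ : ∃ T0 : ℝ, T0 = 27648 * C := ⟨_, rfl⟩
    have hT0p : 0 < T0 := by rw [hT0]; positivity
    refine ⟨η, max (C3 * (27648 * C ^ t)) (max C3 (C2 * (max T0 1) ^ t)), hη, by positivity,
      fun f hf X T hX hT => ?_⟩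
    have hXp : 0 < X := by linarith
    have hTp : 0 < T := by linarith
    have hx : (0 : ℝ) < X ^ ((2 : ℝ) / 3) := by positivity
    have hy : (0 : ℝ) < X ^ ((2 : ℝ) / 3 - η) := by positivity
    have hTt : (0 : ℝ) < T ^ (-t) := by positivity
    obtain ⟨A, hA⟩ : ∃ A : ℝ, A = max (C3 * (27648 * C ^ t)) (max C3 (C2 * (max T0 1) ^ t)) :=
      ⟨_, rfl⟩
    rw [← hA]
    have hA1 : C3 * (27648 * C ^ t) ≤ A := by rw [hA]; exact le_max_left _ _
    have hA2 : C3 ≤ A := by rw [hA]; exact (le_max_left _ _).trans (le_max_right _ _)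
    have hA3 : C2 * (max T0 1) ^ t ≤ A := by rw [hA]; exact (le_max_right _ _).trans (le_max_right _ _)
    have hA0 : 0 < A := lt_of_lt_of_le hC3 hA2
    rcases le_total T0 T with hTT | hTT
    · obtain ⟨K, hK⟩ : ∃ K : ℝ, K = (T / C) ^ 12 / 27648 := ⟨_, rfl⟩
      have hTC : 27648 ≤ T / C := by
        rw [le_div_iff₀ hC]
        linarith
      have hK1 : 1 ≤ K := by
        rw [hK, le_div_iff₀ (by norm_num), one_mul]
        calc (27648 : ℝ) ≤ T / C := hTC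
          _ = (T / C) ^ 1 := (pow_one _).symm
          _ ≤ (T / C) ^ 12 := pow_le_pow_right₀ (by linarith) (by norm_num)
      have hsub : {q | q ∈ Curves f X ∧ ¬ Holds (7 / 6 + ε) T q} ⊆
          {q : ℤ × ℤ | q ∈ Pool.Agent.Y679.Par.Md f X ∧
            K * (Pool.Agent.H925R.Szpiro.condS q.1 q.2 : ℝ) ^ 2 <
              ((Pool.Agent.Y679.Jl.Hh q : ℤ) : ℝ)} := by
        rintro q ⟨hq, hn⟩
        refine ⟨hq, ?_⟩
        by_contra hcon
        refine hn (hH T q hTp hq.1 ?_)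
        rw [← hK]
        exact not_lt.1 hcon
      have h4 := h3 f (fun q a b => (hlam f hf q a b).1) X K hX hK1
      have h5 : (({q | q ∈ Curves f X ∧ ¬ Holds (7 / 6 + ε) T q}.ncard : ℕ) : ℝ) ≤
          C3 * (K ^ (-(t / 12)) * X ^ ((2 : ℝ) / 3) + X ^ (2 / 3 - η)) :=
        le_trans (Nat.cast_le.2 (Set.ncard_le_ncard hsub
          ((hfin f hf X hX).subset fun q hq => hq.1))) h4
      refine h5.trans ?_
      have hKt : K ^ (-(t / 12)) ≤ 27648 * C ^ t * T ^ (-t) := by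
        rw [hK, Real.div_rpow (by positivity) (by norm_num), ← Real.rpow_natCast,
          ← Real.rpow_mul (by positivity)]
        have e1 : ((12 : ℕ) : ℝ) * -(t / 12) = -t := by push_cast; ring
        rw [e1, Real.div_rpow hTp.le hC.le, Real.rpow_neg (by norm_num : (0:ℝ) ≤ 27648),
          div_inv_eq_mul, Real.rpow_neg hC.le, div_inv_eq_mul]
        have h6 : (27648 : ℝ) ^ (t / 12) ≤ 27648 := by
          calc (27648 : ℝ) ^ (t / 12) ≤ 27648 ^ (1 : ℝ) :=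
                Real.rpow_le_rpow_of_exponent_le (by norm_num) (by linarith)
            _ = 27648 := Real.rpow_one _
        have h7 : 0 ≤ T ^ (-t) * C ^ t := by positivity
        calc T ^ (-t) * C ^ t * (27648 : ℝ) ^ (t / 12) ≤ T ^ (-t) * C ^ t * 27648 :=
              mul_le_mul_of_nonneg_left h6 h7
          _ = _ := by ring
      have h8 : C3 * (K ^ (-(t / 12)) * X ^ ((2 : ℝ) / 3)) ≤ A * (T ^ (-t) * X ^ ((2 : ℝ) / 3)) := by
        calc C3 * (K ^ (-(t / 12)) * X ^ ((2 : ℝ) / 3))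
            ≤ C3 * (27648 * C ^ t * T ^ (-t) * X ^ ((2 : ℝ) / 3)) :=
              mul_le_mul_of_nonneg_left (mul_le_mul_of_nonneg_right hKt hx.le) hC3.le
          _ = (C3 * (27648 * C ^ t)) * (T ^ (-t) * X ^ ((2 : ℝ) / 3)) := by ring
          _ ≤ _ := mul_le_mul_of_nonneg_right hA1 (by positivity)
      have h9 : C3 * X ^ ((2 : ℝ) / 3 - η) ≤ A * X ^ ((2 : ℝ) / 3 - η) :=
        mul_le_mul_of_nonneg_right hA2 hy.le
      rw [mul_add, mul_add]
      linarith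
    · have h4 : (({q | q ∈ Curves f X ∧ ¬ Holds (7 / 6 + ε) T q}.ncard : ℕ) : ℝ) ≤
          C2 * X ^ ((2 : ℝ) / 3) :=
        le_trans (Nat.cast_le.2 (Set.ncard_le_ncard (fun q hq => hq.1) (hfin f hf X hX)))
          (hup f hf X hX)
      refine h4.trans ?_
      have h5 : 1 ≤ (max T0 1) ^ t * T ^ (-t) := by
        rw [Real.rpow_neg hTp.le, ← div_eq_mul_inv, one_le_div (by positivity)]
        exact Real.rpow_le_rpow hTp.le (hTT.trans (le_max_left _ _)) ht0.le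
      have h6 : C2 * X ^ ((2 : ℝ) / 3) ≤ A * (T ^ (-t) * X ^ ((2 : ℝ) / 3)) := by
        calc C2 * X ^ ((2 : ℝ) / 3) ≤ C2 * X ^ ((2 : ℝ) / 3) * ((max T0 1) ^ t * T ^ (-t)) :=
              le_mul_of_one_le_right (by positivity) h5
          _ = (C2 * (max T0 1) ^ t) * (T ^ (-t) * X ^ ((2 : ℝ) / 3)) := by ring
          _ ≤ _ := mul_le_mul_of_nonneg_right hA3 (by positivity)
      have h9 : 0 ≤ A * X ^ ((2 : ℝ) / 3 - η) := by positivity
      rw [mul_add]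
      linarith
  refine ⟨⟨c₀, C2, hc₀, fun f hf => ⟨hfin f hf, ?_⟩⟩, fun ε t h1 h2 h3 => ?_, fun κ hκ => ?_⟩
  · filter_upwards [eventually_ge_atTop (max C1 1)] with X hX
    exact ⟨hcnt f hf X hX, hup f hf X ((le_max_right _ _).trans hX)⟩
  · obtain ⟨η, C, hη, hC, h⟩ := main ε t h1 h2 h3
    exact ⟨η, C, hη, h⟩
  · obtain ⟨ε, hε⟩ : ∃ ε : ℝ, ε = (κ - 7 / 6) / 2 := ⟨_, rfl⟩
    have hε0 : 0 < ε := by rw [hε]; linarith
    obtain ⟨η, C, hη, hC, h⟩ := main ε 1 hε0 one_pos (by norm_num)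
    obtain ⟨θ, hθ⟩ : ∃ θ : ℝ, θ = min (min η (ε / 2)) (1 / 3) := ⟨_, rfl⟩
    have hθ0 : 0 < θ := by rw [hθ]; positivity
    have hθ1 : θ ≤ η := by rw [hθ]; exact (min_le_left _ _).trans (min_le_left _ _)
    have hθ2 : θ ≤ ε / 2 := by rw [hθ]; exact (min_le_left _ _).trans (min_le_right _ _)
    have hθ3 : θ ≤ 1 / 3 := by rw [hθ]; exact min_le_right _ _
    refine ⟨θ, C2 + C * (62208 ^ ε + 1) + C2 * (62208 ^ 2) ^ θ, hθ0, fun f hf X hX => ?_⟩
    have hXp : 0 < X := by linarith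
    have hy : (0 : ℝ) < X ^ ((2 : ℝ) / 3 - θ) := by positivity
    have hXθ : X ^ ((2 : ℝ) / 3 - θ) = X ^ ((2 : ℝ) / 3) * X ^ (-θ) := by
      rw [← Real.rpow_add hXp, sub_eq_add_neg]
    rcases le_total X (62208 ^ 2) with hXX | hXX
    · have h4 : (({q | q ∈ Curves f X ∧ ¬ Holds κ 1 q}.ncard : ℕ) : ℝ) ≤
          C2 * X ^ ((2 : ℝ) / 3) :=
        le_trans (Nat.cast_le.2 (Set.ncard_le_ncard (fun q hq => hq.1) (hfin f hf X hX)))
          (hup f hf X hX)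
      have h5 : 1 ≤ (62208 ^ 2 : ℝ) ^ θ * X ^ (-θ) := by
        rw [Real.rpow_neg hXp.le, ← div_eq_mul_inv, one_le_div (by positivity)]
        exact Real.rpow_le_rpow hXp.le hXX hθ0.le
      have h6 : C2 * X ^ ((2 : ℝ) / 3) ≤ C2 * (62208 ^ 2) ^ θ * X ^ ((2 : ℝ) / 3 - θ) := by
        rw [hXθ]
        calc C2 * X ^ ((2 : ℝ) / 3) ≤ C2 * X ^ ((2 : ℝ) / 3) * ((62208 ^ 2 : ℝ) ^ θ * X ^ (-θ)) :=
              le_mul_of_one_le_right (by positivity) h5
          _ = _ := by ring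
      have h7 : 0 ≤ C2 * X ^ ((2 : ℝ) / 3 - θ) := by positivity
      have h8 : 0 ≤ C * (62208 ^ ε + 1) * X ^ ((2 : ℝ) / 3 - θ) := by positivity
      rw [add_mul, add_mul]
      linarith
    · obtain ⟨Y, hY⟩ : ∃ Y : ℝ, Y = X ^ ((1 : ℝ) / 2) := ⟨_, rfl⟩
      have hY62 : 62208 ≤ Y := by
        rw [hY, ← Real.sqrt_eq_rpow]
        exact Real.le_sqrt_of_sq_le hXX
      have hY1 : 1 ≤ Y := by linarith
      have hY0 : 0 < Y := by linarith
      obtain ⟨T, hT⟩ : ∃ T : ℝ, T = (Y / 62208) ^ ε := ⟨_, rfl⟩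
      have hYd : 1 ≤ Y / 62208 := by
        rw [le_div_iff₀ (by norm_num)]
        linarith
      have hT1 : 1 ≤ T := by rw [hT]; exact Real.one_le_rpow hYd hε0.le
      have hT0 : 0 < T := by linarith
      have hsub : {q | q ∈ Curves f X ∧ ¬ Holds κ 1 q} ⊆
          Curves f Y ∪ {q | q ∈ Curves f X ∧ ¬ Holds (7 / 6 + ε) T q} := by
        rintro q ⟨hq, hn⟩
        by_cases hqY : ((f q * Cond6 q.1 q.2 : ℕ) : ℝ) ≤ Y
        · exact Or.inl ⟨hq.1, hq.2.1, hqY⟩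
        · refine Or.inr ⟨hq, fun hcon => hn ?_⟩
          rw [not_le] at hqY
          intro W hW N a ρ hN hA Ω₁ Ω₂ hb p q' r s hdet hr
          obtain ⟨k1, k2⟩ := hcon W hW N a ρ hN hA Ω₁ Ω₂ hb p q' r s hdet hr
          have hNR : (1 : ℝ) ≤ N := by exact_mod_cast hN
          have hN0 : (0 : ℝ) < N := by linarith
          have hρ := hA.pos
          obtain ⟨-, s2⟩ := Pool.Agent.J4.H57.SH.short_of hW.1 hq.1 hW.2
          have hcN : Cond6 q.1 q.2 ≤ N := le_trans s2 (Nat.le_of_dvd hN hA.level)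
          have hYN : Y / 62208 ≤ N := by
            rw [div_le_iff₀ (by norm_num)]
            have h5 : f q * Cond6 q.1 q.2 ≤ 62208 * N :=
              Nat.mul_le_mul (hlam f hf q hq.1 hq.2.1).2 hcN
            have h6 : ((f q * Cond6 q.1 q.2 : ℕ) : ℝ) ≤ ((62208 * N : ℕ) : ℝ) := by
              exact_mod_cast h5
            push_cast at h6 hqY
            linarith
          have hTN : T ≤ (N : ℝ) ^ ε := by
            rw [hT]
            exact Real.rpow_le_rpow (by linarith) hYN hε0.le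
          have e1 : T * ρ * (N : ℝ) ^ (7 / 6 + ε) ≤ 1 * ρ * (N : ℝ) ^ κ := by
            rw [show κ = ε + (7 / 6 + ε) by rw [hε]; ring, Real.rpow_add hN0 ε]
            calc T * ρ * (N : ℝ) ^ (7 / 6 + ε) ≤ (N : ℝ) ^ ε * ρ * (N : ℝ) ^ (7 / 6 + ε) :=
                  mul_le_mul_of_nonneg_right (mul_le_mul_of_nonneg_right hTN hρ.le) (by positivity)
              _ = _ := by ring
          have e2 : T * ρ * (N : ℝ) ^ (7 / 6 + ε + 1 / 2) ≤ 1 * ρ * (N : ℝ) ^ (κ + 1 / 2) := by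
            rw [show κ + 1 / 2 = ε + (7 / 6 + ε + 1 / 2) by rw [hε]; ring, Real.rpow_add hN0 ε]
            calc T * ρ * (N : ℝ) ^ (7 / 6 + ε + 1 / 2) ≤
                (N : ℝ) ^ ε * ρ * (N : ℝ) ^ (7 / 6 + ε + 1 / 2) :=
                  mul_le_mul_of_nonneg_right (mul_le_mul_of_nonneg_right hTN hρ.le) (by positivity)
              _ = _ := by ring
          refine ⟨fun hrN m n hmn => ?_, fun hr0 m n hmn => ?_⟩
          · obtain ⟨a1, a2⟩ := k1 hrN m n hmn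
            exact ⟨a1.trans e1, a2.trans e1⟩
          · obtain ⟨a1, a2⟩ := k2 hr0 m n hmn
            have hlog : 0 ≤ 1 + Real.log |(r : ℝ)| := by
              have h1 : (1 : ℝ) ≤ |(r : ℝ)| := by exact_mod_cast Int.one_le_abs hr0
              have := Real.log_nonneg h1
              linarith
            have e3 := mul_le_mul_of_nonneg_right e2 hlog
            exact ⟨a1.trans e3, a2.trans e3⟩
      have hfinU : (Curves f Y ∪ {q | q ∈ Curves f X ∧ ¬ Holds (7 / 6 + ε) T q}).Finite :=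
        (hfin f hf Y hY1).union ((hfin f hf X hX).subset fun q hq => hq.1)
      have h5 : (({q | q ∈ Curves f X ∧ ¬ Holds κ 1 q}.ncard : ℕ) : ℝ) ≤
          ((Curves f Y).ncard : ℝ) +
            (({q | q ∈ Curves f X ∧ ¬ Holds (7 / 6 + ε) T q}.ncard : ℕ) : ℝ) := by
        have h6 := (Set.ncard_le_ncard hsub hfinU).trans (Set.ncard_union_le _ _)
        exact_mod_cast h6
      refine h5.trans ?_
      have h6 := hup f hf Y hY1
      have h7 := h f hf X T hX hT1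
      have h8 : Y ^ ((2 : ℝ) / 3) ≤ X ^ ((2 : ℝ) / 3 - θ) := by
        rw [hY, ← Real.rpow_mul hXp.le]
        exact Real.rpow_le_rpow_of_exponent_le hX (by linarith)
      have h9 : T ^ (-1 : ℝ) * X ^ ((2 : ℝ) / 3) ≤ 62208 ^ ε * X ^ ((2 : ℝ) / 3 - θ) := by
        have e1 : T ^ (-1 : ℝ) = 62208 ^ ε * X ^ (-(ε / 2)) := by
          rw [hT, ← Real.rpow_mul (by positivity), Real.div_rpow hY0.le (by norm_num), hY,
            ← Real.rpow_mul hXp.le]
          have e2 : (1 : ℝ) / 2 * (ε * -1) = -(ε / 2) := by ring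
          have e3 : ε * (-1 : ℝ) = -ε := by ring
          rw [e2, e3, Real.rpow_neg (by norm_num : (0:ℝ) ≤ 62208), div_inv_eq_mul, mul_comm]
        rw [e1, hXθ]
        have h10 : X ^ (-(ε / 2)) ≤ X ^ (-θ) :=
          Real.rpow_le_rpow_of_exponent_le hX (by linarith)
        calc 62208 ^ ε * X ^ (-(ε / 2)) * X ^ ((2 : ℝ) / 3)
            ≤ 62208 ^ ε * X ^ (-θ) * X ^ ((2 : ℝ) / 3) :=
              mul_le_mul_of_nonneg_right (mul_le_mul_of_nonneg_left h10 (by positivity))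
                (by positivity)
          _ = _ := by ring
      have h10 : X ^ ((2 : ℝ) / 3 - η) ≤ X ^ ((2 : ℝ) / 3 - θ) :=
        Real.rpow_le_rpow_of_exponent_le hX (by linarith)
      have h11 : C * (T ^ (-1 : ℝ) * X ^ ((2 : ℝ) / 3) + X ^ ((2 : ℝ) / 3 - η)) ≤
          C * ((62208 ^ ε + 1) * X ^ ((2 : ℝ) / 3 - θ)) :=
        mul_le_mul_of_nonneg_left (by rw [add_mul, one_mul]; exact add_le_add h9 h10) hC.le
      have h12 : C2 * Y ^ ((2 : ℝ) / 3) ≤ C2 * X ^ ((2 : ℝ) / 3 - θ) :=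
        mul_le_mul_of_nonneg_left h8 hC2.le
      have h13 : 0 ≤ C2 * (62208 ^ 2) ^ θ * X ^ ((2 : ℝ) / 3 - θ) := by positivity
      rw [add_mul, add_mul]
      linarith

end Pool.Agent.Results.MP_bde085_nt.FullTwoTorsionByLevel
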